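import Mathlib

/-!
Block diagonal matrices plus sparse matrices: the dimension count behind their rigidity.
-/

namespace Pool.Agent.V8H37.Rig

variable {F : Type*} [Field F] {V ι : Type*} [Fintype V] [DecidableEq V] [Fintype ι]
  [DecidableEq ι]

/-- The functions supported on `Ω`. -/
def suppIn (F : Type*) [Field F] (Ω : Finset V) : Submodule F (V → F) where
  carrier := {z | ∀ v, v ∉ Ω → z v = 0}
  add_mem' := by
    intro a b ha hb v hv
    simp [ha v hv, hb v hv]
  zero_mem' := by intro v _; rfl
  smul_mem' := by
    intro c x hx v hv
    simp [hx v hv]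

omit [Fintype V] [DecidableEq V] in
theorem mem_suppIn {Ω : Finset V} {z : V → F} : z ∈ suppIn F Ω ↔ ∀ v, v ∉ Ω → z v = 0 :=
  Iff.rfl

/-- The block of `u`. -/
def block (β : V → ι) (i : ι) : Finset V := Finset.univ.filter fun v => β v = i

/-- The allowed positions in the row `u`. -/
def allowed (β : V → ι) (T : Finset (V × V)) (u : V) : Finset V :=
  Finset.univ.filter fun v => β v = β u ∨ (u, v) ∈ T

/-- The positions of `T` in the row `u`. -/
def rowOf (T : Finset (V × V)) (u : V) : Finset V :=
  Finset.univ.filter fun v => (u, v) ∈ T

theorem sum_card_rowOf (T : Finset (V × V)) : ∑ u, (rowOf T u).card = T.card := by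
  classical
  have h : T.card = ∑ u, (T.filter fun x => x.1 = u).card :=
    Finset.card_eq_sum_card_fiberwise (fun x _ => Finset.mem_univ x.1)
  rw [h]
  refine Finset.sum_congr rfl fun u _ => ?_
  apply Finset.card_bij (fun v _ => (u, v))
  · intro v hv
    simpa [rowOf] using hv
  · intro a _ b _ hab
    exact (Prod.mk.inj hab).2
  · intro x hx
    rw [Finset.mem_filter] at hx
    refine ⟨x.2, ?_, ?_⟩
    · simp only [rowOf, Finset.mem_filter, Finset.mem_univ, true_and]
      rw [← hx.2]
      exact hx.1
    · rw [← hx.2]

theorem card_allowed_le (β : V → ι) (T : Finset (V × V)) (u : V) :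
    (allowed β T u).card ≤ (block β (β u)).card + (rowOf T u).card := by
  have : allowed β T u = block β (β u) ∪ rowOf T u := by
    ext v
    simp [allowed, block, rowOf]
  rw [this]
  exact Finset.card_union_le _ _

/-- The part of the space `R` supported on the allowed positions of the row `u`. -/
def part (R : Submodule F (V → F)) (β : V → ι) (T : Finset (V × V)) (u : V) :
    Submodule F (V → F) := R ⊓ suppIn F (allowed β T u)

/-- Sum of the dimensions of the block parts. -/
theorem sum_finrank_block_le (R : Submodule F (V → F)) (β : V → ι) :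
    ∑ i, Module.finrank F (R ⊓ suppIn F (block β i) : Submodule F (V → F)) ≤
      Module.finrank F R := by
  classical
  rw [← Module.finrank_pi_fintype F]
  let φ : ((i : ι) → (R ⊓ suppIn F (block β i) : Submodule F (V → F))) →ₗ[F] R :=
    { toFun := fun y => ⟨∑ i, (y i : V → F), R.sum_mem fun i _ => (y i).2.1⟩
      map_add' := by
        intro a b
        ext v
        simp [Finset.sum_add_distrib]
      map_smul' := by
        intro c a
        ext v
        simp [Finset.mul_sum] }
  apply LinearMap.finrank_le_finrank_of_injective (f := φ)
  rw [← LinearMap.ker_eq_bot, LinearMap.ker_eq_bot']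
  intro y hy
  funext i
  ext v
  by_cases hv : β v = i
  · have h1 := congrFun (congrArg (Subtype.val) hy) v
    simp only [φ, LinearMap.coe_mk, AddHom.coe_mk, Finset.sum_apply, ZeroMemClass.coe_zero,
      Pi.zero_apply] at h1
    rw [Finset.sum_eq_single i] at h1
    · simpa using h1
    · intro j _ hj
      apply (y j).2.2 v
      simp only [block, Finset.mem_filter, Finset.mem_univ, true_and]
      rw [hv]
      exact fun h => hj h.symm
    · intro h; exact absurd (Finset.mem_univ i) h
  · have : (y i : V → F) v = 0 := by
      apply (y i).2.2 v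
      simp only [block, Finset.mem_filter, Finset.mem_univ, true_and]
      exact hv
    simpa using this

theorem finrank_part_le (R : Submodule F (V → F)) (β : V → ι) (T : Finset (V × V)) (u : V) :
    Module.finrank F (part R β T u) ≤
      Module.finrank F (R ⊓ suppIn F (block β (β u)) : Submodule F (V → F)) +
        (rowOf T u).card := by
  classical
  let φ : part R β T u →ₗ[F] ({v // v ∈ rowOf T u} → F) :=
    { toFun := fun z v => (z : V → F) v
      map_add' := by intro a b; rfl
      map_smul' := by intro c a; rfl }
  have h1 := LinearMap.finrank_range_add_finrank_ker φ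
  have h2 : Module.finrank F (LinearMap.range φ) ≤ (rowOf T u).card := by
    refine (Submodule.finrank_le _).trans ?_
    rw [Module.finrank_fintype_fun_eq_card, Fintype.card_coe]
  have h3 : Module.finrank F (LinearMap.ker φ) ≤
      Module.finrank F (R ⊓ suppIn F (block β (β u)) : Submodule F (V → F)) := by
    let ψ : LinearMap.ker φ →ₗ[F] (R ⊓ suppIn F (block β (β u)) : Submodule F (V → F)) :=
      { toFun := fun z => ⟨((z : part R β T u) : V → F), (z : part R β T u).2.1, by
          intro v hv
          by_cases hT : v ∈ rowOf T u
          · exact congrFun (LinearMap.mem_ker.mp z.2) ⟨v, hT⟩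
          · apply (z : part R β T u).2.2 v
            simp only [allowed, block, rowOf, Finset.mem_filter, Finset.mem_univ,
              true_and] at hv hT ⊢
            exact fun h => h.elim hv hT⟩
        map_add' := by intro a b; rfl
        map_smul' := by intro c a; rfl }
    apply LinearMap.finrank_le_finrank_of_injective (f := ψ)
    intro a b hab
    have := congrArg (Subtype.val) hab
    exact Subtype.ext (Subtype.ext this)
  omega

/-- The key dimension count. -/
theorem sum_finrank_part_le (R : Submodule F (V → F)) (β : V → ι) (T : Finset (V × V))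
    {b r s : ℕ} (hb : ∀ i, (block β i).card ≤ b) (hr : Module.finrank F R ≤ r)
    (hs : T.card ≤ s) : ∑ u, Module.finrank F (part R β T u) ≤ b * r + s := by
  classical
  have h1 : ∑ u, Module.finrank F (part R β T u) ≤
      ∑ u, (Module.finrank F (R ⊓ suppIn F (block β (β u)) : Submodule F (V → F)) +
        (rowOf T u).card) := Finset.sum_le_sum fun u _ => finrank_part_le R β T u
  rw [Finset.sum_add_distrib, sum_card_rowOf] at h1
  have h2 : ∑ u, Module.finrank F (R ⊓ suppIn F (block β (β u)) : Submodule F (V → F)) =
      ∑ i, (block β i).card *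
        Module.finrank F (R ⊓ suppIn F (block β i) : Submodule F (V → F)) := by
    rw [← Finset.sum_fiberwise_of_maps_to (s := Finset.univ) (t := Finset.univ)
      (g := fun u => β u) (fun u _ => Finset.mem_univ _)]
    refine Finset.sum_congr rfl fun i _ => ?_
    rw [← smul_eq_mul, ← Finset.sum_const]
    refine Finset.sum_congr rfl fun u hu => ?_
    rw [(Finset.mem_filter.mp hu).2]
  have h3 : ∑ i, (block β i).card *
        Module.finrank F (R ⊓ suppIn F (block β i) : Submodule F (V → F)) ≤ b * r := by
    calc _ ≤ ∑ i, b * Module.finrank F (R ⊓ suppIn F (block β i) : Submodule F (V → F)) :=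
          Finset.sum_le_sum fun i _ => Nat.mul_le_mul_right _ (hb i)
      _ = b * ∑ i, Module.finrank F (R ⊓ suppIn F (block β i) : Submodule F (V → F)) :=
          (Finset.mul_sum _ _ _).symm
      _ ≤ b * r := Nat.mul_le_mul_left _ ((sum_finrank_block_le R β).trans hr)
  omega

/-- Finitely many coordinates separate the points of a finite-dimensional space. -/
theorem exists_separating (Z : Submodule F (V → F)) (C : Finset V)
    (hC : ∀ z ∈ Z, (∀ v ∈ C, z v = 0) → z = 0) :
    ∃ C' ⊆ C, C'.card = Module.finrank F Z ∧ ∀ z ∈ Z, (∀ v ∈ C', z v = 0) → z = 0 := by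
  classical
  let ev : {v // v ∈ C} → Module.Dual F Z := fun v => (LinearMap.proj (v : V)).comp Z.subtype
  obtain ⟨κ, a, hainj, hspan, hind⟩ := exists_linearIndependent' F ev
  have : Fintype κ := Fintype.ofInjective a hainj
  have hsep : ∀ z ∈ Z, (∀ x : κ, z (a x) = 0) → z = 0 := by
    intro z hz h
    apply hC z hz
    intro v hv
    have h1 : ev ⟨v, hv⟩ ∈ Submodule.span F (Set.range (ev ∘ a)) := by
      rw [hspan]
      exact Submodule.subset_span ⟨_, rfl⟩
    have h2 : ∀ f ∈ Submodule.span F (Set.range (ev ∘ a)), f ⟨z, hz⟩ = 0 := by
      intro f hf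
      induction hf using Submodule.span_induction with
      | mem x hx =>
        obtain ⟨y, rfl⟩ := hx
        exact h y
      | zero => rfl
      | add x y _ _ hx hy => rw [LinearMap.add_apply, hx, hy, add_zero]
      | smul c x _ hx => rw [LinearMap.smul_apply, hx, smul_zero]
    exact h2 _ h1
  refine ⟨Finset.univ.image fun x : κ => (a x : V), ?_, ?_, ?_⟩
  · intro v hv
    obtain ⟨x, _, rfl⟩ := Finset.mem_image.mp hv
    exact (a x).2
  · have hinj : Function.Injective (fun x : κ => (a x : V)) :=
      Subtype.val_injective.comp hainj
    rw [Finset.card_image_of_injective _ hinj, Finset.card_univ]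
    apply le_antisymm
    · have := hind.fintype_card_le_finrank
      rwa [Subspace.dual_finrank_eq] at this
    · have : Function.Injective (LinearMap.pi (fun x : κ =>
          (LinearMap.proj (a x : V)).comp Z.subtype) : Z →ₗ[F] (κ → F)) := by
        rw [← LinearMap.ker_eq_bot, LinearMap.ker_eq_bot']
        intro z hz
        apply Subtype.ext
        exact hsep z z.2 fun x => congrFun hz x
      have h3 := LinearMap.finrank_le_finrank_of_injective this
      rwa [Module.finrank_fintype_fun_eq_card] at h3
  · intro z hz h
    apply hsep z hz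
    intro x
    exact h _ (Finset.mem_image_of_mem _ (Finset.mem_univ x))

end Pool.Agent.V8H37.Rig
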