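import Mathlib
import Pool.Agent.V8H37.Rig.Core

/-!
A filtration by degree, Cramer's rule inside it, and the combinatorial data attached to a low
rank matrix with few nonzero entries off the diagonal blocks.
-/

namespace Pool.Agent.V8H37.Rig

section Filtration

variable {F R κ : Type*} [Field F] [CommRing R] [Algebra F R] [Fintype κ]

/-- The span of the monomials in the `x j` with all exponents at most `E`. -/
def Fil (F : Type*) {R κ : Type*} [Field F] [CommRing R] [Algebra F R] [Fintype κ]
    (x : κ → R) (E : ℕ) : Submodule F R :=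
  Submodule.span F (Set.range fun α : κ → Fin (E + 1) => ∏ j, x j ^ (α j : ℕ))

instance (x : κ → R) (E : ℕ) : FiniteDimensional F (Fil F x E) := by
  classical
  exact FiniteDimensional.span_of_finite F (Set.finite_range _)

theorem finrank_Fil_le (x : κ → R) (E : ℕ) :
    Module.finrank F (Fil F x E) ≤ (E + 1) ^ Fintype.card κ := by
  classical
  refine (finrank_range_le_card (R := F)
    (fun α : κ → Fin (E + 1) => ∏ j, x j ^ (α j : ℕ))).trans ?_
  rw [Fintype.card_fun, Fintype.card_fin]

theorem Fil_mono (x : κ → R) {E E' : ℕ} (h : E ≤ E') : Fil F x E ≤ Fil F x E' := by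
  apply Submodule.span_mono
  rintro _ ⟨α, rfl⟩
  exact ⟨fun j => Fin.castLE (by omega) (α j), rfl⟩

theorem one_mem_Fil (x : κ → R) (E : ℕ) : (1 : R) ∈ Fil F x E :=
  Submodule.subset_span ⟨fun _ => 0, by simp⟩

theorem algebraMap_mem_Fil (x : κ → R) (E : ℕ) (c : F) : algebraMap F R c ∈ Fil F x E := by
  rw [Algebra.algebraMap_eq_smul_one]
  exact Submodule.smul_mem _ _ (one_mem_Fil x E)

theorem var_mem_Fil (x : κ → R) (j : κ) : x j ∈ Fil F x 1 := by
  classical
  apply Submodule.subset_span
  refine ⟨fun i => if i = j then 1 else 0, ?_⟩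
  show ∏ i, x i ^ ((if i = j then 1 else 0 : Fin (1 + 1)) : ℕ) = x j
  rw [Finset.prod_eq_single j]
  · simp
  · intro i _ hi
    simp [hi]
  · intro h; exact absurd (Finset.mem_univ j) h

theorem mul_mem_Fil (x : κ → R) {E E' : ℕ} {a b : R} (ha : a ∈ Fil F x E)
    (hb : b ∈ Fil F x E') : a * b ∈ Fil F x (E + E') := by
  have h1 : a * b ∈ Fil F x E * Fil F x E' := Submodule.mul_mem_mul ha hb
  refine (?_ : Fil F x E * Fil F x E' ≤ Fil F x (E + E')) h1
  rw [Fil, Fil, Submodule.span_mul_span, Submodule.span_le]
  rintro _ ⟨_, ⟨α, rfl⟩, _, ⟨α', rfl⟩, rfl⟩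
  apply Submodule.subset_span
  refine ⟨fun j => ⟨α j + α' j, by have := (α j).2; have := (α' j).2; omega⟩, ?_⟩
  show ∏ j, x j ^ ((α j : ℕ) + (α' j : ℕ)) = _
  simp only [pow_add, Finset.prod_mul_distrib]

theorem prod_mem_Fil {ι : Type*} (x : κ → R) (s : Finset ι) (f : ι → R) (E : ι → ℕ)
    (h : ∀ i ∈ s, f i ∈ Fil F x (E i)) : ∏ i ∈ s, f i ∈ Fil F x (∑ i ∈ s, E i) := by
  classical
  induction s using Finset.induction_on with
  | empty => simpa using one_mem_Fil x 0
  | insert a s ha ih =>
    rw [Finset.prod_insert ha, Finset.sum_insert ha]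
    exact mul_mem_Fil x (h a (Finset.mem_insert_self a s))
      (ih fun i hi => h i (Finset.mem_insert_of_mem hi))

theorem pow_mem_Fil (x : κ → R) {E : ℕ} {a : R} (ha : a ∈ Fil F x E) (k : ℕ) :
    a ^ k ∈ Fil F x (k * E) := by
  induction k with
  | zero => simpa using one_mem_Fil x 0
  | succ k ih =>
    rw [pow_succ, Nat.succ_mul]
    exact mul_mem_Fil x ih ha

theorem det_mem_Fil {ι : Type*} [Fintype ι] [DecidableEq ι] (x : κ → R) (M : Matrix ι ι R)
    (h : ∀ i j, M i j ∈ Fil F x 1) : M.det ∈ Fil F x (Fintype.card ι) := by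
  rw [Matrix.det_apply]
  apply Submodule.sum_mem
  intro σ _
  rw [Units.smul_def]
  apply Submodule.smul_of_tower_mem
  have := prod_mem_Fil (F := F) x Finset.univ (fun i => M (σ i) i) (fun _ => 1)
    (fun i _ => h _ _)
  simpa using this

theorem adjugate_mem_Fil {ι : Type*} [Fintype ι] [DecidableEq ι] (x : κ → R) (M : Matrix ι ι R)
    (h : ∀ i j, M i j ∈ Fil F x 1) (i j : ι) : M.adjugate i j ∈ Fil F x (Fintype.card ι) := by
  rw [Matrix.adjugate_apply]
  apply det_mem_Fil
  intro i' j'
  by_cases hi : i' = j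
  · subst hi
    rw [Matrix.updateRow_self]
    by_cases hj : j' = i
    · subst hj
      rw [Pi.single_eq_same]
      exact one_mem_Fil x 1
    · rw [Pi.single_eq_of_ne hj]
      exact Submodule.zero_mem _
  · rw [Matrix.updateRow_ne hi]
    exact h _ _

/-- Cramer's rule in a commutative ring. -/
theorem cramer_rel {ι V : Type*} [Fintype ι] [DecidableEq ι] (L : V → V → R) (row : ι → V)
    (e : ι → V) (u : V) (c : ι → R) (hc : ∀ v, L u v = ∑ i, c i * L (row i) v) (v : V) :
    L u v * (Matrix.of fun i i' => L (row i) (e i')).det =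
      ∑ i, ∑ i', L u (e i') *
        (Matrix.of fun i i' => L (row i) (e i')).adjugate i' i * L (row i) v := by
  set B : Matrix ι ι R := Matrix.of fun i i' => L (row i) (e i') with hB
  have h1 : ∀ i', L u (e i') = Matrix.vecMul c B i' := by
    intro i'
    rw [hc, Matrix.vecMul, dotProduct]
    rfl
  have h2 : ∀ i, ∑ i', L u (e i') * B.adjugate i' i = c i * B.det := by
    intro i
    have h3 : Matrix.vecMul (Matrix.vecMul c B) B.adjugate i = c i * B.det := by
      rw [Matrix.vecMul_vecMul, Matrix.mul_adjugate, Matrix.vecMul_smul, Matrix.vecMul_one,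
        Pi.smul_apply, smul_eq_mul, mul_comm]
    rw [← h3, Matrix.vecMul, dotProduct]
    exact Finset.sum_congr rfl fun i' _ => by rw [h1]
  rw [hc v, Finset.sum_mul]
  refine Finset.sum_congr rfl fun i _ => ?_
  rw [← Finset.sum_mul, h2]
  ring

end Filtration

section Data

variable {F : Type*} [Field F] {V ι : Type*} [Fintype V] [DecidableEq V] [Fintype ι]
  [DecidableEq ι]

/-- The positions of the entries that determine the matrix. -/
def positions (β : V → ι) (T : Finset (V × V)) (I : Finset V) (J : Finset (V × V)) :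
    Finset (V × V) :=
  (Finset.univ.filter fun x => x.1 ∈ I ∧ x.2 ∈ allowed β T x.1) ∪ J

theorem card_positions_le (β : V → ι) (T : Finset (V × V)) (I : Finset V) (J : Finset (V × V))
    {b r s : ℕ} (hb : ∀ i, (block β i).card ≤ b) (hI : I.card ≤ r) (hs : T.card ≤ s)
    (hJ : J.card ≤ b * r + s) : (positions β T I J).card ≤ 2 * (b * r + s) := by
  classical
  refine (Finset.card_union_le _ _).trans ?_
  have h1 : (Finset.univ.filter fun x : V × V => x.1 ∈ I ∧ x.2 ∈ allowed β T x.1).card =
      ∑ u ∈ I, (allowed β T u).card := by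
    rw [← Finset.card_sigma]
    apply Finset.card_bij (fun x _ => ⟨x.1, x.2⟩)
    · intro x hx
      rw [Finset.mem_filter] at hx
      rw [Finset.mem_sigma]
      exact hx.2
    · intro a _ b _ hab
      simp only [Sigma.mk.injEq] at hab
      exact Prod.ext hab.1 (eq_of_heq hab.2)
    · rintro ⟨u, v⟩ hx
      rw [Finset.mem_sigma] at hx
      exact ⟨(u, v), by simp [hx.1, hx.2], rfl⟩
  have h2 : ∑ u ∈ I, (allowed β T u).card ≤ b * r + s := by
    calc ∑ u ∈ I, (allowed β T u).card ≤ ∑ u ∈ I, (b + (rowOf T u).card) :=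
          Finset.sum_le_sum fun u _ => (card_allowed_le β T u).trans
            (Nat.add_le_add_right (hb _) _)
      _ = I.card * b + ∑ u ∈ I, (rowOf T u).card := by
          rw [Finset.sum_add_distrib, Finset.sum_const, smul_eq_mul]
      _ ≤ b * r + s := by
          refine Nat.add_le_add ?_ ?_
          · rw [mul_comm]; exact Nat.mul_le_mul_left _ hI
          · exact (Finset.sum_le_sum_of_subset (Finset.subset_univ I)).trans
              ((sum_card_rowOf T).le.trans hs)
  omega

/-- The combinatorial data `(I, J)` fit the matrix `L` whose support is allowed by `T`. -/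
structure Fits (β : V → ι) (T : Finset (V × V)) (L : V → V → F) (I : Finset V)
    (J : Finset (V × V)) : Prop where
  supp : ∀ u v, v ∉ allowed β T u → L u v = 0
  indep : LinearIndependent F fun i : I => L i
  span : ∀ u, L u ∈ Submodule.span F (Set.range fun i : I => L i)
  sep : ∀ u, u ∉ I → ∀ z ∈ Submodule.span F (Set.range fun i : I => L i),
    (∀ v, v ∉ allowed β T u ∨ (u, v) ∈ J → z v = 0) → z = 0

theorem exists_fits (β : V → ι) (T : Finset (V × V)) (L : V → V → F) {b r s : ℕ}
    (hb : ∀ i, (block β i).card ≤ b) (hr : (Matrix.of L).rank ≤ r) (hs : T.card ≤ s)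
    (hL : ∀ u v, v ∉ allowed β T u → L u v = 0) :
    ∃ (I : Finset V) (J : Finset (V × V)), I.card ≤ r ∧ J.card ≤ b * r + s ∧
      Fits β T L I J := by
  classical
  obtain ⟨κ, a, hainj, hspan, hind⟩ := exists_linearIndependent' F (fun u : V => L u)
  have : Fintype κ := Fintype.ofInjective a hainj
  set I : Finset V := Finset.univ.image a with hI
  have hrk : Module.finrank F (Submodule.span F (Set.range (fun u : V => L u))) ≤ r := by
    rw [Matrix.rank_eq_finrank_span_row] at hr
    exact hr
  have hIcard : I.card ≤ r := by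
    rw [hI, Finset.card_image_of_injective _ hainj, Finset.card_univ]
    have h1 : Fintype.card κ = Module.finrank F (Submodule.span F (Set.range
        ((fun u : V => L u) ∘ a))) := (finrank_span_eq_card hind).symm
    rw [h1, hspan]
    exact hrk
  have hrange : Set.range (fun i : I => L i) = Set.range ((fun u : V => L u) ∘ a) := by
    ext z
    constructor
    · rintro ⟨⟨i, hi⟩, rfl⟩
      obtain ⟨x, _, rfl⟩ := Finset.mem_image.mp hi
      exact ⟨x, rfl⟩
    · rintro ⟨x, rfl⟩
      exact ⟨⟨a x, Finset.mem_image_of_mem _ (Finset.mem_univ x)⟩, rfl⟩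
  set R := Submodule.span F (Set.range fun i : I => L i) with hR
  have hRspan : R = Submodule.span F (Set.range (fun u : V => L u)) := by
    rw [hR, hrange, hspan]
  have hindI : LinearIndependent F fun i : I => L i := by
    have hpre : ∀ i : I, ∃ x, a x = i := by
      intro i
      obtain ⟨x, _, hx⟩ := Finset.mem_image.mp i.2
      exact ⟨x, hx⟩
    choose g hg using hpre
    have hginj : Function.Injective g := by
      intro i i' h
      apply Subtype.ext
      rw [← hg i, ← hg i', h]
    have h2 := hind.comp g hginj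
    have h3 : (((fun u : V => L u) ∘ a) ∘ g) = fun i : I => L i := by
      funext i
      simp only [Function.comp, hg]
    rwa [h3] at h2
  have hsepJ : ∀ u, ∃ C' : Finset V, C'.card = Module.finrank F (part R β T u) ∧
      ∀ z ∈ part R β T u, (∀ v ∈ C', z v = 0) → z = 0 := by
    intro u
    obtain ⟨C', _, h1, h2⟩ := exists_separating (part R β T u) Finset.univ
      (fun z _ h => funext fun v => h v (Finset.mem_univ v))
    exact ⟨C', h1, h2⟩
  choose C' hC'card hC'sep using hsepJ
  set J : Finset (V × V) := Finset.univ.filter fun x => x.2 ∈ C' x.1 with hJ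
  have hJcard : J.card ≤ b * r + s := by
    have h1 : J.card = ∑ u, (C' u).card := by
      rw [hJ, ← Finset.card_sigma]
      apply Finset.card_bij (fun x _ => ⟨x.1, x.2⟩)
      · intro x hx
        rw [Finset.mem_filter] at hx
        rw [Finset.mem_sigma]
        exact ⟨Finset.mem_univ _, hx.2⟩
      · intro a _ b _ hab
        simp only [Sigma.mk.injEq] at hab
        exact Prod.ext hab.1 (eq_of_heq hab.2)
      · rintro ⟨u, v⟩ hx
        rw [Finset.mem_sigma] at hx
        exact ⟨(u, v), by simp [hx.2], rfl⟩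
    rw [h1]
    simp only [hC'card]
    exact sum_finrank_part_le R β T hb (hRspan ▸ hrk) hs
  refine ⟨I, J, hIcard, hJcard, hL, hindI, ?_, ?_⟩
  · intro u
    rw [← hR, hRspan]
    exact Submodule.subset_span ⟨u, rfl⟩
  · intro u _ z hz h
    apply hC'sep u z ⟨hz, fun v hv => h v (Or.inl hv)⟩
    intro v hv
    apply h v (Or.inr _)
    simp [hJ, hv]

/-- In a fitting situation, columns can be chosen so that the minor does not vanish. -/
theorem exists_columns (β : V → ι) (T : Finset (V × V)) (L : V → V → F) (I : Finset V)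
    (J : Finset (V × V)) (h : Fits β T L I J) (u : V) (hu : u ∉ I) :
    ∃ e : I → V, (∀ i, e i ∉ allowed β T u ∨ (u, e i) ∈ J) ∧
      (Matrix.of fun i i' : I => L i (e i')).det ≠ 0 := by
  classical
  set R := Submodule.span F (Set.range fun i : I => L i) with hR
  obtain ⟨C', hC', hcard, hsep⟩ := exists_separating R
    (Finset.univ.filter fun v => v ∉ allowed β T u ∨ (u, v) ∈ J)
    (fun z hz h0 => h.sep u hu z hz fun v hv => h0 v (by simp [hv]))
  have hfin : Module.finrank F R = Fintype.card I := finrank_span_eq_card h.indep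
  have hcc : Fintype.card I = Fintype.card C' := by
    rw [Fintype.card_coe C', hcard, hfin]
  let φ : I ≃ C' := Fintype.equivOfCardEq hcc
  refine ⟨fun i => φ i, fun i => ?_, ?_⟩
  · have := hC' (φ i).2
    simpa using this
  · intro hdet
    obtain ⟨c, hc0, hc⟩ := Matrix.exists_vecMul_eq_zero_iff.mpr hdet
    apply hc0
    have h1 : ∑ i : I, c i • L i = 0 := by
      apply hsep _ (Submodule.sum_mem _ fun i _ => Submodule.smul_mem _ _
        (Submodule.subset_span ⟨i, rfl⟩))
      intro v hv
      have h2 := congrFun hc (φ.symm ⟨v, hv⟩)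
      simp only [Matrix.vecMul, dotProduct, Matrix.of_apply, Equiv.apply_symm_apply,
        Pi.zero_apply] at h2
      rw [Finset.sum_apply]
      exact h2
    funext i
    exact Fintype.linearIndependent_iff.mp h.indep c h1 i

end Data

end Pool.Agent.V8H37.Rig
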