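import Mathlib
import Pool.Agent.V8H37.Rig.Core

/-!
Counting the block diagonal matrices over a finite field that are not rigid.
-/

namespace Pool.Agent.V8H37.Rig

variable {F : Type*} [Field F] {V ι : Type*} [Fintype V] [DecidableEq V] [Fintype ι]
  [DecidableEq ι]

/-- The set of nonzero entries of a matrix. -/
noncomputable def nonzeros (S : Matrix V V F) : Finset (V × V) := by
  classical exact Finset.univ.filter fun x => S x.1 x.2 ≠ 0

theorem mem_nonzeros (S : Matrix V V F) (u v : V) : (u, v) ∈ nonzeros S ↔ S u v ≠ 0 := by
  simp [nonzeros]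

variable [Fintype F] [DecidableEq F]

/-- The functions supported on `Ω`, as a finite set. -/
def suppFin (F : Type*) [Field F] [Fintype F] [DecidableEq F] (Ω : Finset V) : Finset (V → F) :=
  Fintype.piFinset fun v => if v ∈ Ω then (Finset.univ : Finset F) else {0}

theorem mem_suppFin {Ω : Finset V} {z : V → F} : z ∈ suppFin F Ω ↔ ∀ v, v ∉ Ω → z v = 0 := by
  simp only [suppFin, Fintype.mem_piFinset]
  refine forall_congr' fun v => ?_
  by_cases h : v ∈ Ω <;> simp [h]

theorem card_suppFin (Ω : Finset V) : (suppFin F Ω).card = Fintype.card F ^ Ω.card := by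
  rw [suppFin, Fintype.card_piFinset]
  have : ∀ v, (if v ∈ Ω then (Finset.univ : Finset F) else {0}).card =
      if v ∈ Ω then Fintype.card F else 1 := by
    intro v
    split_ifs <;> simp
  simp only [this]
  rw [Finset.prod_ite_mem, Finset.univ_inter, Finset.prod_const]

open Classical in
/-- The elements of a subspace, as a finite set. -/
noncomputable def elts (Z : Submodule F (V → F)) : Finset (V → F) :=
  Finset.univ.filter fun z => z ∈ Z

theorem card_elts (Z : Submodule F (V → F)) :
    (elts Z).card = Fintype.card F ^ Module.finrank F Z := by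
  classical
  rw [elts, ← Fintype.card_subtype]
  exact Module.card_eq_pow_finrank (K := F) (V := Z)

/-- The matrices whose rows with index in `I` are those of `ρ`, and whose other rows lie in the
allowed parts of the space spanned by these rows. -/
noncomputable def ext (β : V → ι) (T : Finset (V × V)) (I : Finset V) (ρ : V → V → F) :
    Finset (V → V → F) :=
  Fintype.piFinset fun u => if u ∈ I then {ρ u} else
    elts (part (Submodule.span F (Set.range fun i : I => ρ i)) β T u)

theorem card_ext_le (β : V → ι) (T : Finset (V × V)) (I : Finset V) (ρ : V → V → F)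
    {b r s : ℕ} (hb : ∀ i, (block β i).card ≤ b) (hI : I.card ≤ r) (hs : T.card ≤ s) :
    (ext β T I ρ).card ≤ Fintype.card F ^ (b * r + s) := by
  classical
  have hq : 0 < Fintype.card F := Fintype.card_pos
  rw [ext, Fintype.card_piFinset]
  set R := Submodule.span F (Set.range fun i : I => ρ i) with hR
  have hRr : Module.finrank F R ≤ r := by
    refine (finrank_range_le_card (R := F) (fun i : I => ρ i)).trans ?_
    rwa [Fintype.card_coe]
  have h1 : ∀ u, (if u ∈ I then ({ρ u} : Finset (V → F)) else
      elts (part R β T u)).card ≤ Fintype.card F ^ Module.finrank F (part R β T u) := by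
    intro u
    split_ifs
    · rw [Finset.card_singleton]
      exact Nat.one_le_pow _ _ hq
    · rw [card_elts]
  refine (Finset.prod_le_prod' fun u _ => h1 u).trans ?_
  rw [Finset.prod_pow_eq_pow_sum]
  exact Nat.pow_le_pow_right hq (sum_finrank_part_le R β T hb hRr hs)

/-- The choices for the rows with index in `I`. -/
def rowsFin (F : Type*) [Field F] [Fintype F] [DecidableEq F] (β : V → ι) (T : Finset (V × V))
    (I : Finset V) : Finset (V → V → F) :=
  Fintype.piFinset fun u => if u ∈ I then suppFin F (allowed β T u) else {0}

theorem card_rowsFin_le (β : V → ι) (T : Finset (V × V)) (I : Finset V)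
    {b r s : ℕ} (hb : ∀ i, (block β i).card ≤ b) (hI : I.card ≤ r) (hs : T.card ≤ s) :
    (rowsFin F β T I).card ≤ Fintype.card F ^ (b * r + s) := by
  classical
  have hq : 0 < Fintype.card F := Fintype.card_pos
  rw [rowsFin, Fintype.card_piFinset]
  have h1 : ∀ u, (if u ∈ I then suppFin F (allowed β T u) else ({0} : Finset (V → F))).card =
      Fintype.card F ^ (if u ∈ I then (allowed β T u).card else 0) := by
    intro u
    split_ifs
    · rw [card_suppFin]
    · simp
  rw [Finset.prod_congr rfl fun u _ => h1 u, Finset.prod_pow_eq_pow_sum]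
  apply Nat.pow_le_pow_right hq
  have h2 : ∑ u, (if u ∈ I then (allowed β T u).card else 0) ≤
      ∑ u, ((if u ∈ I then b else 0) + (rowOf T u).card) := by
    refine Finset.sum_le_sum fun u _ => ?_
    split_ifs
    · exact (card_allowed_le β T u).trans (Nat.add_le_add_right (hb _) _)
    · exact Nat.zero_le _
  refine h2.trans ?_
  rw [Finset.sum_add_distrib, sum_card_rowOf, Finset.sum_ite_mem, Finset.univ_inter,
    Finset.sum_const, smul_eq_mul, mul_comm]
  exact Nat.add_le_add (Nat.mul_le_mul_left _ hI) hs

/-- The low rank matrices with allowed supports. -/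
noncomputable def lowFin (F : Type*) [Field F] [Fintype F] [DecidableEq F] (β : V → ι)
    (T : Finset (V × V)) (r : ℕ) : Finset (V → V → F) :=
  ((Finset.univ : Finset (Finset V)).filter fun I => I.card ≤ r).biUnion fun I =>
    (rowsFin F β T I).biUnion fun ρ => ext β T I ρ

theorem card_lowFin_le (β : V → ι) (T : Finset (V × V))
    {b r s : ℕ} (hb : ∀ i, (block β i).card ≤ b) (hs : T.card ≤ s) :
    (lowFin F β T r).card ≤ 2 ^ Fintype.card V * Fintype.card F ^ (2 * (b * r + s)) := by
  classical
  rw [lowFin]
  refine (Finset.card_biUnion_le_card_mul _ _ (Fintype.card F ^ (2 * (b * r + s))) ?_).trans ?_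
  · intro I hI
    have hI' : I.card ≤ r := (Finset.mem_filter.mp hI).2
    refine (Finset.card_biUnion_le_card_mul _ _ (Fintype.card F ^ (b * r + s)) ?_).trans ?_
    · intro ρ _
      exact card_ext_le β T I ρ hb hI' hs
    · have h2 : Fintype.card F ^ (2 * (b * r + s)) =
          Fintype.card F ^ (b * r + s) * Fintype.card F ^ (b * r + s) := by
        rw [two_mul (b * r + s), pow_add _ (b * r + s)]
      rw [h2]
      exact Nat.mul_le_mul_right _ (card_rowsFin_le (F := F) β T I hb hI' hs)
  · apply Nat.mul_le_mul_right
    refine (Finset.card_filter_le Finset.univ _).trans ?_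
    rw [Finset.card_univ, Fintype.card_finset]

theorem mem_lowFin (β : V → ι) (T : Finset (V × V)) (r : ℕ) (L : V → V → F)
    (hr : (Matrix.of L).rank ≤ r) (hL : ∀ u v, v ∉ allowed β T u → L u v = 0) :
    L ∈ lowFin F β T r := by
  classical
  obtain ⟨κ, a, hainj, hspan, hind⟩ := exists_linearIndependent' F (fun u : V => L u)
  have : Fintype κ := Fintype.ofInjective a hainj
  set I : Finset V := Finset.univ.image a with hI
  have hIcard : I.card ≤ r := by
    rw [hI, Finset.card_image_of_injective _ hainj, Finset.card_univ]
    have h1 : Fintype.card κ = Module.finrank F (Submodule.span F (Set.range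
        ((fun u : V => L u) ∘ a))) := (finrank_span_eq_card hind).symm
    rw [h1, hspan]
    rw [Matrix.rank_eq_finrank_span_row] at hr
    exact hr
  have hrange : Set.range (fun i : I => L i) = Set.range ((fun u : V => L u) ∘ a) := by
    ext z
    constructor
    · rintro ⟨⟨i, hi⟩, rfl⟩
      obtain ⟨x, _, rfl⟩ := Finset.mem_image.mp hi
      exact ⟨x, rfl⟩
    · rintro ⟨x, rfl⟩
      exact ⟨⟨a x, Finset.mem_image_of_mem _ (Finset.mem_univ x)⟩, rfl⟩
  rw [lowFin, Finset.mem_biUnion]
  refine ⟨I, by simp [hIcard], ?_⟩
  rw [Finset.mem_biUnion]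
  refine ⟨fun u => if u ∈ I then L u else 0, ?_, ?_⟩
  · rw [rowsFin, Fintype.mem_piFinset]
    intro u
    by_cases hu : u ∈ I
    · simp only [hu, if_true]
      exact mem_suppFin.mpr fun v hv => hL u v hv
    · simp [hu]
  · rw [ext, Fintype.mem_piFinset]
    intro u
    by_cases hu : u ∈ I
    · simp [hu]
    · simp only [hu, if_false]
      rw [elts, Finset.mem_filter]
      refine ⟨Finset.mem_univ _, ?_, ?_⟩
      · have h2 : (fun i : I => (if (i : V) ∈ I then L i else 0)) = fun i : I => L i := by
          funext i
          rw [if_pos i.2]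
        rw [h2, hrange, hspan]
        exact Submodule.subset_span ⟨u, rfl⟩
      · exact fun v hv => hL u v hv

/-- The number of small sets of positions. -/
theorem card_small_le (W : Type*) [Fintype W] [DecidableEq W] (s : ℕ) :
    ((Finset.univ : Finset (Finset W)).filter fun T => T.card ≤ s).card ≤
      (Fintype.card W + 1) ^ s := by
  classical
  have h : ((Finset.univ : Finset (Finset W)).filter fun T => T.card ≤ s) ⊆
      (Finset.univ : Finset (Fin s → Option W)).image
        fun f => Finset.univ.filter fun w => ∃ i, f i = some w := by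
    intro T hT
    have hT' : T.card ≤ s := (Finset.mem_filter.mp hT).2
    rw [Finset.mem_image]
    let e := T.equivFin
    refine ⟨fun i => if h : (i : ℕ) < T.card then some (e.symm ⟨i, h⟩ : W) else none,
      Finset.mem_univ _, ?_⟩
    ext w
    simp only [Finset.mem_filter, Finset.mem_univ, true_and]
    constructor
    · rintro ⟨i, hi⟩
      split_ifs at hi with h
      rw [← Option.some.inj hi]
      exact (e.symm ⟨i, h⟩).2
    · intro hw
      refine ⟨⟨(e ⟨w, hw⟩ : ℕ), (e ⟨w, hw⟩).2.trans_le hT'⟩, ?_⟩
      rw [dif_pos (e ⟨w, hw⟩).2]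
      simp
  refine (Finset.card_le_card h).trans (Finset.card_image_le.trans ?_)
  rw [Finset.card_univ, Fintype.card_fun, Fintype.card_option, Fintype.card_fin]

open Classical in
/-- The block diagonal matrices that are not `(r, s)`-rigid. -/
noncomputable def notRigid (F : Type*) [Field F] [Fintype F] [DecidableEq F] (β : V → ι)
    (r s : ℕ) : Finset (Matrix V V F) :=
  Finset.univ.filter fun A => (∀ u v, β u ≠ β v → A u v = 0) ∧
    ∃ L S : Matrix V V F, A = L + S ∧ L.rank ≤ r ∧ (nonzeros S).card ≤ s

theorem card_notRigid_le (β : V → ι) {b r s : ℕ} (hb : ∀ i, (block β i).card ≤ b) :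
    (notRigid F β r s).card ≤
      2 ^ Fintype.card V * (Fintype.card V ^ 2 + 1) ^ s *
        Fintype.card F ^ (2 * b * r + 3 * s) := by
  classical
  have hq : 0 < Fintype.card F := Fintype.card_pos
  -- every such matrix is a low rank matrix changed on a small set of positions
  have hsub : notRigid F β r s ⊆
      ((Finset.univ : Finset (Finset (V × V))).filter fun T => T.card ≤ s).biUnion fun T =>
        (lowFin F β T r ×ˢ Fintype.piFinset fun x : V × V =>
          if x ∈ T then (Finset.univ : Finset F) else {0}).image
          fun p => Matrix.of fun u v => if (u, v) ∈ T then p.2 (u, v) else p.1 u v := by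
    intro A hA
    obtain ⟨hblk, L, S, hLS, hr, hs⟩ := (Finset.mem_filter.mp hA).2
    rw [Finset.mem_biUnion]
    refine ⟨nonzeros S, by simp [hs], ?_⟩
    rw [Finset.mem_image]
    refine ⟨(L, fun x => if x ∈ nonzeros S then A x.1 x.2 else 0), ?_, ?_⟩
    · rw [Finset.mem_product]
      constructor
      · apply mem_lowFin β _ r L hr
        intro u v hv
        simp only [allowed, Finset.mem_filter, Finset.mem_univ, true_and, not_or] at hv
        have h1 : S u v = 0 := by
          by_contra h
          exact hv.2 ((mem_nonzeros S u v).mpr h)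
        have h2 := hblk u v fun h => hv.1 h.symm
        rw [hLS, Matrix.add_apply, h1, add_zero] at h2
        exact h2
      · rw [Fintype.mem_piFinset]
        intro x
        by_cases hx : x ∈ nonzeros S <;> simp [hx]
    · ext u v
      rw [Matrix.of_apply]
      by_cases h : (u, v) ∈ nonzeros S
      · simp [h]
      · simp only [h, if_false]
        have h1 : S u v = 0 := by
          by_contra h'
          exact h ((mem_nonzeros S u v).mpr h')
        rw [hLS, Matrix.add_apply, h1, add_zero]
  refine (Finset.card_le_card hsub).trans ?_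
  refine (Finset.card_biUnion_le_card_mul _ _
    (2 ^ Fintype.card V * Fintype.card F ^ (2 * (b * r + s)) * Fintype.card F ^ s) ?_).trans ?_
  · intro T hT
    have hs : T.card ≤ s := (Finset.mem_filter.mp hT).2
    refine Finset.card_image_le.trans ?_
    rw [Finset.card_product]
    refine Nat.mul_le_mul (card_lowFin_le β T hb hs) ?_
    rw [Fintype.card_piFinset]
    have h1 : ∀ x : V × V, (if x ∈ T then (Finset.univ : Finset F) else {0}).card =
        if x ∈ T then Fintype.card F else 1 := by
      intro x
      split_ifs <;> simp
    simp only [h1]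
    rw [Finset.prod_ite_mem, Finset.univ_inter, Finset.prod_const]
    exact Nat.pow_le_pow_right hq hs
  · have h2 := card_small_le (V × V) s
    rw [Fintype.card_prod, ← sq] at h2
    calc _ ≤ (Fintype.card V ^ 2 + 1) ^ s *
        (2 ^ Fintype.card V * Fintype.card F ^ (2 * (b * r + s)) * Fintype.card F ^ s) :=
          Nat.mul_le_mul_right _ h2
      _ = _ := by
        have : 2 * b * r + 3 * s = 2 * (b * r + s) + s := by ring
        rw [this, pow_add]
        ring

end Pool.Agent.V8H37.Rig
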