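import Mathlib
import Pool.Agent.V8H37.Rig.Alg
import Pool.Agent.V8H37.Rig.Count

/-!
Counting, over an arbitrary field, the block diagonal matrices with entries in a finite set that
are not rigid.
-/

namespace Pool.Agent.V8H37.Rig

variable {F : Type*} [Field F] [DecidableEq F] {V ι : Type*} [Fintype V] [DecidableEq V]
  [Fintype ι] [DecidableEq ι]

/-- The block diagonal matrices with entries in `X` inside the blocks. -/
def univX (β : V → ι) (X : Finset F) : Finset (V → V → F) :=
  Fintype.piFinset fun u => Fintype.piFinset fun v => if β u = β v then X else {0}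

theorem mem_univX {β : V → ι} {X : Finset F} {A : V → V → F} :
    A ∈ univX β X ↔ ∀ u v, (β u = β v → A u v ∈ X) ∧ (β u ≠ β v → A u v = 0) := by
  simp only [univX, Fintype.mem_piFinset]
  refine forall_congr' fun u => forall_congr' fun v => ?_
  by_cases h : β u = β v <;> simp [h]

open Classical in
/-- The matrices with given combinatorial data and given values on `T`. -/
noncomputable def withData (β : V → ι) (X : Finset F) (T : Finset (V × V)) (I : Finset V)
    (J : Finset (V × V)) (τ : V × V → F) : Finset (V → V → F) :=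
  (univX β X).filter fun A => ∃ L : V → V → F, Fits β T L I J ∧
    (∀ u v, (u, v) ∉ T → A u v = L u v) ∧ ∀ u v, (u, v) ∈ T → A u v = τ (u, v)

theorem card_withData_le (β : V → ι) (X : Finset F) (T : Finset (V × V)) (I : Finset V)
    (J : Finset (V × V)) (τ : V × V → F) :
    (withData β X T I J τ).card ≤
      (Fintype.card V ^ 2 * (X.card * (I.card + 2)) + 1) ^ (positions β T I J).card := by
  classical
  set 𝒜 := withData β X T I J τ with h𝒜
  have hdata : ∀ A : 𝒜, ∃ L : V → V → F, Fits β T L I J ∧
      (∀ u v, (u, v) ∉ T → A.1 u v = L u v) ∧ ∀ u v, (u, v) ∈ T → A.1 u v = τ (u, v) :=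
    fun A => (Finset.mem_filter.mp A.2).2
  have huniv : ∀ A : 𝒜, A.1 ∈ univX β X := fun A => (Finset.mem_filter.mp A.2).1
  choose L hfit hout hin using hdata
  -- the ring of functions on the set of matrices
  set Lh : V → V → (𝒜 → F) := fun u v A => L A u v with hLh
  set x : positions β T I J → (𝒜 → F) := fun y => Lh y.1.1 y.1.2 with hx
  have hvar : ∀ y : V × V, y ∈ positions β T I J → Lh y.1 y.2 ∈ Fil F x 1 := by
    intro y hy
    exact var_mem_Fil x ⟨y, hy⟩
  have hzero : ∀ u v, v ∉ allowed β T u → Lh u v = 0 := by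
    intro u v hv
    funext A
    exact (hfit A).supp u v hv
  have hI : ∀ i ∈ I, ∀ v, Lh i v ∈ Fil F x 1 := by
    intro i hi v
    by_cases hv : v ∈ allowed β T i
    · exact hvar (i, v) (Finset.mem_union_left _ (by simp [hi, hv]))
    · rw [hzero i v hv]; exact Submodule.zero_mem _
  have hquot : ∀ (A : 𝒜) (k : V × V), ∃ D N : 𝒜 → F, D ∈ Fil F x (I.card + 2) ∧
      N ∈ Fil F x (I.card + 2) ∧ D A ≠ 0 ∧ Lh k.1 k.2 * D = N := by
    rintro A ⟨u, v⟩
    by_cases hu : u ∈ I
    · exact ⟨1, Lh u v, one_mem_Fil x _, Fil_mono x (by omega) (hI u hu v), one_ne_zero,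
        mul_one _⟩
    · obtain ⟨e, he, hdet⟩ := exists_columns β T (L A) I J (hfit A) u hu
      have hc : ∀ B : 𝒜, ∃ c : I → F, ∀ v, L B u v = ∑ i : I, c i * L B i v := by
        intro B
        obtain ⟨c, hc⟩ := (Submodule.mem_span_range_iff_exists_fun F).mp ((hfit B).span u)
        refine ⟨c, fun v => ?_⟩
        rw [← hc, Finset.sum_apply]
        rfl
      choose c hc using hc
      have hrel := cramer_rel Lh (fun i : I => (i : V)) e u (fun i B => c B i) (by
        intro v
        funext B
        rw [Finset.sum_apply]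
        exact hc B v) v
      have hB : ∀ i i' : I, (Matrix.of fun i i' : I => Lh i (e i')) i i' ∈ Fil F x 1 :=
        fun i i' => hI i i.2 (e i')
      have hLu : ∀ i', Lh u (e i') ∈ Fil F x 1 := by
        intro i'
        rcases he i' with h1 | h1
        · rw [hzero u _ h1]; exact Submodule.zero_mem _
        · exact hvar (u, e i') (Finset.mem_union_right _ h1)
      refine ⟨_, _, ?_, ?_, ?_, hrel⟩
      · apply Fil_mono x (E := Fintype.card I) (by rw [Fintype.card_coe]; omega)
        exact det_mem_Fil x _ hB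
      · apply Submodule.sum_mem
        intro i _
        apply Submodule.sum_mem
        intro i' _
        have h1 := mul_mem_Fil x (mul_mem_Fil x (hLu i') (adjugate_mem_Fil x _ hB i' i))
          (hI i i.2 v)
        rw [Fintype.card_coe] at h1
        exact Fil_mono x (by omega) h1
      · have h2 : (Matrix.of fun i i' : I => Lh i (e i')).det A =
            (Matrix.of fun i i' : I => L A i (e i')).det := by
          have h3 := RingHom.map_det (Pi.evalRingHom (fun _ : 𝒜 => F) A)
            (Matrix.of fun i i' : I => Lh i (e i'))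
          rw [Pi.evalRingHom_apply] at h3
          rw [h3]
          rfl
        rw [h2]
        exact hdet
  choose D N hD hN hD0 hDN using hquot
  -- the separating functions
  set M : Finset (V × V) := Finset.univ.filter fun k => β k.1 = β k.2 ∧ k ∉ T with hM
  set f : 𝒜 → (𝒜 → F) := fun A =>
    ∏ k ∈ M, ∏ c ∈ X.erase (A.1 k.1 k.2), (N A k - algebraMap F (𝒜 → F) c * D A k) with hf
  set E := Fintype.card V ^ 2 * (X.card * (I.card + 2)) with hE
  have hfmem : ∀ A, f A ∈ Fil F x E := by
    intro A
    have h1 := prod_mem_Fil (F := F) x M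
      (fun k => ∏ c ∈ X.erase (A.1 k.1 k.2), (N A k - algebraMap F (𝒜 → F) c * D A k))
      (fun _ => X.card * (I.card + 2)) (fun k _ => by
        have h2 := prod_mem_Fil (F := F) x (X.erase (A.1 k.1 k.2))
          (fun c => N A k - algebraMap F (𝒜 → F) c * D A k) (fun _ => I.card + 2)
          (fun c _ => by
            apply Submodule.sub_mem _ (hN A k)
            rw [← Algebra.smul_def]
            exact Submodule.smul_mem _ _ (hD A k))
        rw [Finset.sum_const, smul_eq_mul] at h2
        exact Fil_mono x (Nat.mul_le_mul_right _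
          (Finset.card_le_card (Finset.erase_subset _ _))) h2)
    rw [Finset.sum_const, smul_eq_mul] at h1
    refine Fil_mono x (Nat.mul_le_mul_right _ ?_) h1
    refine (Finset.card_le_card (Finset.subset_univ _)).trans ?_
    rw [Finset.card_univ, Fintype.card_prod, sq]
  have hfself : ∀ A, f A A ≠ 0 := by
    intro A
    rw [hf]
    simp only [Finset.prod_apply]
    refine Finset.prod_ne_zero_iff.mpr fun k hk => Finset.prod_ne_zero_iff.mpr fun c hc => ?_
    have h1 := congrFun (hDN A k) A
    simp only [Pi.mul_apply, hLh] at h1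
    have h2 : A.1 k.1 k.2 = L A k.1 k.2 := by
      have := (Finset.mem_filter.mp hk).2.2
      exact hout A k.1 k.2 this
    rw [Pi.sub_apply, Pi.mul_apply, ← h1, ← h2]
    have h3 : (algebraMap F (𝒜 → F)) c A = c := rfl
    rw [h3, ← sub_mul]
    exact mul_ne_zero (sub_ne_zero.mpr (Finset.ne_of_mem_erase hc).symm) (hD0 A k)
  have hfother : ∀ A B, A ≠ B → f A B = 0 := by
    intro A B hAB
    have hex : ∃ k : V × V, A.1 k.1 k.2 ≠ B.1 k.1 k.2 := by
      by_contra hcon
      push Not at hcon
      apply hAB
      apply Subtype.ext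
      funext u v
      exact hcon (u, v)
    obtain ⟨⟨u, v⟩, huv⟩ := hex
    simp only at huv
    have hT : (u, v) ∉ T := by
      intro h
      rw [hin A u v h, hin B u v h] at huv
      exact huv rfl
    have hβ : β u = β v := by
      by_contra h
      rw [(mem_univX.mp (huniv A) u v).2 h, (mem_univX.mp (huniv B) u v).2 h] at huv
      exact huv rfl
    rw [hf]
    simp only [Finset.prod_apply]
    apply Finset.prod_eq_zero (i := (u, v))
    · simp [hM, hβ, hT]
    · apply Finset.prod_eq_zero (i := B.1 u v)
      · rw [Finset.mem_erase]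
        exact ⟨huv.symm, (mem_univX.mp (huniv B) u v).1 hβ⟩
      · have h1 := congrFun (hDN A (u, v)) B
        simp only [Pi.mul_apply, hLh] at h1
        rw [Pi.sub_apply, Pi.mul_apply, ← h1, ← hout B u v hT]
        have h3 : (algebraMap F (𝒜 → F)) (B.1 u v) B = B.1 u v := rfl
        rw [h3, sub_self]
  have hind : LinearIndependent F f := by
    rw [Fintype.linearIndependent_iff]
    intro c hc B
    have h1 := congrFun hc B
    rw [Finset.sum_apply, Finset.sum_eq_single B] at h1
    · simp only [Pi.smul_apply, smul_eq_mul, Pi.zero_apply] at h1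
      exact (mul_eq_zero.mp h1).resolve_right (hfself B)
    · intro A _ hAB
      rw [Pi.smul_apply, hfother A B hAB, smul_zero]
    · intro h; exact absurd (Finset.mem_univ B) h
  have hind2 : LinearIndependent F fun A => (⟨f A, hfmem A⟩ : Fil F x E) := by
    apply LinearIndependent.of_comp (Fil F x E).subtype
    exact hind
  have h2 := hind2.fintype_card_le_finrank
  rw [Fintype.card_coe] at h2
  refine h2.trans ((finrank_Fil_le x E).trans ?_)
  rw [Fintype.card_coe]

open Classical in
/-- The matrices of the family that are not `(r, s)`-rigid. -/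
noncomputable def badX (β : V → ι) (X : Finset F) (r s : ℕ) : Finset (V → V → F) :=
  (univX β X).filter fun A =>
    ∃ L S : Matrix V V F, Matrix.of A = L + S ∧ L.rank ≤ r ∧ (nonzeros S).card ≤ s

theorem card_badX_le (β : V → ι) (X : Finset F) {b r s : ℕ}
    (hb : ∀ i, (block β i).card ≤ b) (hV : 2 ≤ Fintype.card V) (hr4 : 4 * r ≤ Fintype.card V)
    (hX : Fintype.card V ^ 4 ≤ X.card) :
    (badX β X r s).card ≤ 2 ^ Fintype.card V * X.card ^ (5 * b * r + 7 * s) := by
  classical
  set n := Fintype.card V with hn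
  set Q := X.card with hQ
  have hn4 : n ^ 2 + 1 ≤ n ^ 4 := by nlinarith [sq_nonneg (n ^ 2), Nat.pow_le_pow_left hV 2]
  have hQ1 : 1 ≤ Q := le_trans (by nlinarith [Nat.pow_le_pow_left hV 4]) hX
  have hnQ : n ^ 2 + 1 ≤ Q := hn4.trans hX
  have hsub : badX β X r s ⊆
      ((Finset.univ : Finset (Finset (V × V))).filter fun T => T.card ≤ s).biUnion fun T =>
      (Finset.univ : Finset (Finset V)).biUnion fun I =>
      ((Finset.univ : Finset (Finset (V × V))).filter fun J => J.card ≤ b * r + s).biUnion
        fun J =>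
      (Fintype.piFinset fun x : V × V => if x ∈ T ∧ β x.1 = β x.2 then X else {0}).biUnion
        fun τ => if I.card ≤ r then withData β X T I J τ else ∅ := by
    intro A hA
    obtain ⟨hAu, L, S, hLS, hr, hs⟩ := Finset.mem_filter.mp hA
    have hAval : ∀ u v, A u v = L u v + S u v := by
      intro u v
      exact congrFun (congrFun hLS u) v
    have hout : ∀ u v, (u, v) ∉ nonzeros S → A u v = L u v := by
      intro u v huv
      have h1 : S u v = 0 := by
        by_contra h
        exact huv ((mem_nonzeros S u v).mpr h)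
      rw [hAval, h1, add_zero]
    have hLsupp : ∀ u v, v ∉ allowed β (nonzeros S) u → L u v = 0 := by
      intro u v hv
      simp only [allowed, Finset.mem_filter, Finset.mem_univ, true_and, not_or] at hv
      rw [← hout u v hv.2]
      exact (mem_univX.mp hAu u v).2 fun h => hv.1 h.symm
    obtain ⟨I, J, hI, hJ, hfit⟩ := exists_fits β (nonzeros S) L hb hr hs hLsupp
    simp only [Finset.mem_biUnion]
    refine ⟨nonzeros S, by simp [hs], I, Finset.mem_univ _, J, by simp [hJ],
      fun x => if x ∈ nonzeros S ∧ β x.1 = β x.2 then A x.1 x.2 else 0, ?_, ?_⟩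
    · rw [Fintype.mem_piFinset]
      intro x
      by_cases hx : x ∈ nonzeros S ∧ β x.1 = β x.2
      · rw [if_pos hx, if_pos hx]
        exact (mem_univX.mp hAu x.1 x.2).1 hx.2
      · rw [if_neg hx, if_neg hx]
        exact Finset.mem_singleton_self _
    · rw [if_pos hI, withData, Finset.mem_filter]
      refine ⟨hAu, L, hfit, hout, ?_⟩
      intro u v huv
      by_cases hβ : β u = β v
      · simp only [huv, hβ, and_self, if_true]
      · simp only [hβ, and_false, if_false]
        exact (mem_univX.mp hAu u v).2 hβ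
  have hE : ∀ I : Finset V, I.card ≤ r →
      n ^ 2 * (Q * (I.card + 2)) + 1 ≤ Q ^ 2 := by
    intro I hI
    have h1 : 4 * (n ^ 2 * (I.card + 2)) ≤ n ^ 2 * (n + 8) := by
      calc 4 * (n ^ 2 * (I.card + 2)) = n ^ 2 * (4 * (I.card + 2)) := by ring
        _ ≤ n ^ 2 * (n + 8) := Nat.mul_le_mul_left _ (by omega)
    have h2 : n ^ 2 * (n + 8) + 4 ≤ 4 * n ^ 4 := by
      have h3 : n * n ≥ 4 := by nlinarith
      have h4 : n ^ 2 * (n + 8) + 4 ≤ n ^ 2 * (n + 9) := by nlinarith
      have h5 : n + 9 ≤ 4 * n ^ 2 := by nlinarith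
      calc n ^ 2 * (n + 8) + 4 ≤ n ^ 2 * (n + 9) := h4
        _ ≤ n ^ 2 * (4 * n ^ 2) := Nat.mul_le_mul_left _ h5
        _ = 4 * n ^ 4 := by ring
    have h3 : n ^ 2 * (I.card + 2) + 1 ≤ Q := by omega
    calc n ^ 2 * (Q * (I.card + 2)) + 1 ≤ n ^ 2 * (Q * (I.card + 2)) + Q := by omega
      _ = Q * (n ^ 2 * (I.card + 2) + 1) := by ring
      _ ≤ Q * Q := Nat.mul_le_mul_left _ h3
      _ = Q ^ 2 := by ring
  refine (Finset.card_le_card hsub).trans ?_
  have hτ : ∀ (T : Finset (V × V)), T.card ≤ s →
      (Fintype.piFinset fun x : V × V => if x ∈ T ∧ β x.1 = β x.2 then X else {0}).card ≤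
        Q ^ s := by
    intro T hT
    rw [Fintype.card_piFinset]
    have h1 : ∀ x : V × V, (if x ∈ T ∧ β x.1 = β x.2 then X else {0}).card ≤
        if x ∈ T then Q else 1 := by
      intro x
      by_cases hx : x ∈ T
      · by_cases hβ : β x.1 = β x.2
        · simp [hx, hβ, hQ]
        · simp only [hx, hβ, and_false, if_false, if_true, Finset.card_singleton]
          exact hQ1
      · simp [hx]
    refine (Finset.prod_le_prod' fun x _ => h1 x).trans ?_
    rw [Finset.prod_ite_mem, Finset.univ_inter, Finset.prod_const]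
    exact Nat.pow_le_pow_right hQ1 hT
  have hlast : ∀ (T : Finset (V × V)) (I : Finset V) (J : Finset (V × V)) (τ : V × V → F),
      T.card ≤ s → J.card ≤ b * r + s →
      (if I.card ≤ r then withData β X T I J τ else ∅).card ≤ Q ^ (4 * (b * r + s)) := by
    intro T I J τ hT hJ
    by_cases hI : I.card ≤ r
    · rw [if_pos hI]
      refine (card_withData_le β X T I J τ).trans ?_
      calc (n ^ 2 * (Q * (I.card + 2)) + 1) ^ (positions β T I J).card
          ≤ (Q ^ 2) ^ (positions β T I J).card := Nat.pow_le_pow_left (hE I hI) _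
        _ ≤ (Q ^ 2) ^ (2 * (b * r + s)) := Nat.pow_le_pow_right (by positivity)
            (card_positions_le β T I J hb hI hT hJ)
        _ = Q ^ (4 * (b * r + s)) := by rw [← pow_mul]; congr 1; ring
    · rw [if_neg hI]
      simp
  have hsmall : ∀ t : ℕ, ((Finset.univ : Finset (Finset (V × V))).filter
      fun T => T.card ≤ t).card ≤ Q ^ t := by
    intro t
    refine (card_small_le (V × V) t).trans ?_
    rw [Fintype.card_prod, ← sq]
    exact Nat.pow_le_pow_left hnQ t
  refine (Finset.card_biUnion_le_card_mul _ _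
    (2 ^ n * (Q ^ (b * r + s) * (Q ^ s * Q ^ (4 * (b * r + s))))) ?_).trans ?_
  · intro T hT
    have hT' : T.card ≤ s := (Finset.mem_filter.mp hT).2
    refine (Finset.card_biUnion_le_card_mul _ _
      (Q ^ (b * r + s) * (Q ^ s * Q ^ (4 * (b * r + s)))) ?_).trans ?_
    · intro I _
      refine (Finset.card_biUnion_le_card_mul _ _
        (Q ^ s * Q ^ (4 * (b * r + s))) ?_).trans ?_
      · intro J hJ
        have hJ' : J.card ≤ b * r + s := (Finset.mem_filter.mp hJ).2
        refine (Finset.card_biUnion_le_card_mul _ _ (Q ^ (4 * (b * r + s))) ?_).trans ?_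
        · intro τ _
          exact hlast T I J τ hT' hJ'
        · exact Nat.mul_le_mul_right _ (hτ T hT')
      · exact Nat.mul_le_mul_right _ (hsmall _)
    · apply Nat.mul_le_mul_right
      rw [Finset.card_univ, Fintype.card_finset]
  · calc _ ≤ Q ^ s * (2 ^ n * (Q ^ (b * r + s) * (Q ^ s * Q ^ (4 * (b * r + s))))) :=
          Nat.mul_le_mul_right _ (hsmall s)
      _ = 2 ^ n * Q ^ (s + (b * r + s) + s + 4 * (b * r + s)) := by
          rw [pow_add, pow_add, pow_add]; ring
      _ = 2 ^ n * Q ^ (5 * b * r + 7 * s) := by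
          congr 2; ring

end Pool.Agent.V8H37.Rig
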