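import Mathlib

/-!
Every square matrix over a field is a product of few simple matrices: matrices whose off-diagonal
nonzero entries all lead from one fixed set of indices to its complement.
-/

namespace Pool.Agent.V8H37.Rig

variable {F : Type*} [Field F]

/-- The off-diagonal nonzero entries lead from indices with `w = false` to indices with
`w = true`. -/
def Simple {V : Type*} (B : Matrix V V F) : Prop :=
  ∃ w : V → Bool, ∀ x y, x ≠ y → B x y ≠ 0 → w x = false ∧ w y = true

/-- `A` is a product of `c` simple matrices. -/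
def ProdSimple {V : Type*} [Fintype V] [DecidableEq V] (c : ℕ) (A : Matrix V V F) : Prop :=
  ∃ B : Fin c → Matrix V V F, (∀ i, Simple (B i)) ∧ A = (List.ofFn B).prod

section

variable {V W : Type*} [Fintype V] [DecidableEq V] [Fintype W] [DecidableEq W]

omit [Fintype V] in
theorem simple_diagonal (d : V → F) : Simple (Matrix.diagonal d) :=
  ⟨fun _ => false, fun x y hxy h => absurd (Matrix.diagonal_apply_ne d hxy) h⟩

omit [Fintype V] in
theorem simple_one : Simple (1 : Matrix V V F) := by
  rw [← Matrix.diagonal_one]
  exact simple_diagonal _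

theorem ProdSimple.mul {c c' : ℕ} {A A' : Matrix V V F} (h : ProdSimple c A)
    (h' : ProdSimple c' A') : ProdSimple (c + c') (A * A') := by
  obtain ⟨B, hB, rfl⟩ := h
  obtain ⟨B', hB', rfl⟩ := h'
  refine ⟨Fin.append B B', fun i => ?_, ?_⟩
  · refine Fin.addCases (fun i => ?_) (fun i => ?_) i
    · rw [Fin.append_left]; exact hB i
    · rw [Fin.append_right]; exact hB' i
  · rw [List.ofFn_fin_append, List.prod_append]

theorem prodSimple_of_simple {A : Matrix V V F} (h : Simple A) : ProdSimple 1 A :=
  ⟨fun _ => A, fun _ => h, by simp⟩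

theorem prodSimple_one (c : ℕ) : ProdSimple c (1 : Matrix V V F) := by
  refine ⟨fun _ => 1, fun _ => simple_one, ?_⟩
  rw [List.ofFn_const, List.prod_replicate, one_pow]

theorem ProdSimple.mono {c c' : ℕ} (hc : c ≤ c') {A : Matrix V V F} (h : ProdSimple c A) :
    ProdSimple c' A := by
  have h1 := h.mul (prodSimple_one (c' - c))
  rwa [mul_one, Nat.add_sub_cancel' hc] at h1

theorem ProdSimple.reindex {c : ℕ} (e : V ≃ W) {A : Matrix V V F} (h : ProdSimple c A) :
    ProdSimple c (Matrix.reindex e e A) := by
  obtain ⟨B, hB, rfl⟩ := h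
  refine ⟨fun i => Matrix.reindex e e (B i), fun i => ?_, ?_⟩
  · obtain ⟨w, hw⟩ := hB i
    refine ⟨fun x => w (e.symm x), fun x y hxy h => ?_⟩
    exact hw (e.symm x) (e.symm y) (fun h' => hxy (e.symm.injective h')) h
  · have h1 := map_list_prod (Matrix.reindexAlgEquiv F F e) (List.ofFn B)
    rw [Matrix.reindexAlgEquiv_apply] at h1
    rw [h1, List.map_ofFn]
    rfl

/-- Adding a one-point block. -/
theorem ProdSimple.extend {c : ℕ} {A : Matrix V V F} (h : ProdSimple c A) :
    ProdSimple c (Matrix.fromBlocks A 0 0 (1 : Matrix (Fin 1) (Fin 1) F)) := by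
  obtain ⟨B, hB, rfl⟩ := h
  refine ⟨fun i => Matrix.fromBlocks (B i) 0 0 1, fun i => ?_, ?_⟩
  · obtain ⟨w, hw⟩ := hB i
    refine ⟨Sum.elim w fun _ => false, fun x y hxy h => ?_⟩
    rcases x with x | x <;> rcases y with y | y
    · exact hw x y (fun h' => hxy (by rw [h'])) h
    · exact absurd rfl h
    · exact absurd rfl h
    · exact absurd (by rw [Subsingleton.elim x y]) hxy
  · clear hB
    induction c with
    | zero => simp
    | succ c ih =>
      rw [List.ofFn_succ, List.ofFn_succ, List.prod_cons, List.prod_cons, ← ih,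
        Matrix.fromBlocks_multiply]
      simp

theorem simple_upper (C : Matrix V (Fin 1) F) :
    Simple (Matrix.fromBlocks (1 : Matrix V V F) C 0 (1 : Matrix (Fin 1) (Fin 1) F)) := by
  refine ⟨Sum.elim (fun _ => false) fun _ => true, fun x y hxy h => ?_⟩
  rcases x with x | x <;> rcases y with y | y
  · exact absurd (Matrix.one_apply_ne fun h' => hxy (by rw [h'])) h
  · exact ⟨rfl, rfl⟩
  · exact absurd rfl h
  · exact absurd (by rw [Subsingleton.elim x y]) hxy

theorem simple_lower (C : Matrix (Fin 1) V F) :
    Simple (Matrix.fromBlocks (1 : Matrix V V F) 0 C (1 : Matrix (Fin 1) (Fin 1) F)) := by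
  refine ⟨Sum.elim (fun _ => true) fun _ => false, fun x y hxy h => ?_⟩
  rcases x with x | x <;> rcases y with y | y
  · exact absurd (Matrix.one_apply_ne fun h' => hxy (by rw [h'])) h
  · exact absurd rfl h
  · exact ⟨rfl, rfl⟩
  · exact absurd (by rw [Subsingleton.elim x y]) hxy

/-- Splitting off one index whose diagonal entry is nonzero. -/
theorem prodSimple_blocks {c : ℕ} (hc : ∀ A : Matrix V V F, ProdSimple c A)
    (A : Matrix V V F) (B : Matrix V (Fin 1) F) (C : Matrix (Fin 1) V F)
    (D : Matrix (Fin 1) (Fin 1) F) (hD : D 0 0 ≠ 0) :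
    ProdSimple (c + 3) (Matrix.fromBlocks A B C D) := by
  have hdet : IsUnit D.det := by
    rw [Matrix.det_fin_one]
    exact isUnit_iff_ne_zero.mpr hD
  letI : Invertible D := D.invertibleOfIsUnitDet hdet
  rw [Matrix.fromBlocks_eq_of_invertible₂₂]
  have h1 : Matrix.fromBlocks (A - B * ⅟D * C) 0 0 D =
      Matrix.fromBlocks (A - B * ⅟D * C) 0 0 (1 : Matrix (Fin 1) (Fin 1) F) *
        Matrix.fromBlocks (1 : Matrix V V F) 0 0 D := by
    rw [Matrix.fromBlocks_multiply]; simp
  have hdiag : Simple (Matrix.fromBlocks (1 : Matrix V V F) 0 0 D) := by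
    refine ⟨fun _ => false, fun x y hxy h => ?_⟩
    rcases x with x | x <;> rcases y with y | y
    · exact absurd (Matrix.one_apply_ne fun h' => hxy (by rw [h'])) h
    · exact absurd rfl h
    · exact absurd rfl h
    · exact absurd (by rw [Subsingleton.elim x y]) hxy
  rw [h1]
  have h2 := ((prodSimple_of_simple (simple_upper (B * ⅟D))).mul
    ((hc (A - B * ⅟D * C)).extend.mul (prodSimple_of_simple hdiag))).mul
      (prodSimple_of_simple (simple_lower (⅟D * C)))
  exact h2.mono (by omega)

theorem prodSimple_sum {c : ℕ} (hc : ∀ A : Matrix V V F, ProdSimple c A)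
    (M : Matrix (V ⊕ Fin 1) (V ⊕ Fin 1) F) : ProdSimple (c + 4) M := by
  classical
  have hM : M = Matrix.fromBlocks M.toBlocks₁₁ M.toBlocks₁₂ M.toBlocks₂₁ M.toBlocks₂₂ :=
    (Matrix.fromBlocks_toBlocks M).symm
  set A := M.toBlocks₁₁
  set B := M.toBlocks₁₂
  set C := M.toBlocks₂₁
  set D := M.toBlocks₂₂
  rw [hM]
  by_cases hD : D 0 0 = 0
  · by_cases hB : ∃ i, B i 0 ≠ 0
    · obtain ⟨i, hi⟩ := hB
      set E : Matrix (Fin 1) V F := Matrix.of fun _ j => if j = i then 1 else 0 with hE
      have hEB : (E * B) 0 0 = B i 0 := by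
        rw [Matrix.mul_apply]
        simp [hE]
      have h1 : Matrix.fromBlocks A B C D =
          Matrix.fromBlocks (1 : Matrix V V F) 0 (-E) (1 : Matrix (Fin 1) (Fin 1) F) *
            Matrix.fromBlocks A B (C + E * A) (D + E * B) := by
        rw [Matrix.fromBlocks_multiply]
        congr 1 <;> simp
      rw [h1]
      have h2 := (prodSimple_of_simple (simple_lower (-E))).mul
        (prodSimple_blocks hc A B (C + E * A) (D + E * B) (by
          rw [Matrix.add_apply, hD, zero_add, hEB]
          exact hi))
      exact h2.mono (by omega)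
    · by_cases hC : ∃ j, C 0 j ≠ 0
      · obtain ⟨j, hj⟩ := hC
        set E : Matrix V (Fin 1) F := Matrix.of fun i _ => if i = j then 1 else 0 with hE
        have hCE : (C * E) 0 0 = C 0 j := by
          rw [Matrix.mul_apply]
          simp [hE]
        have h1 : Matrix.fromBlocks A B C D =
            Matrix.fromBlocks A (B + A * E) C (D + C * E) *
              Matrix.fromBlocks (1 : Matrix V V F) (-E) 0 (1 : Matrix (Fin 1) (Fin 1) F) := by
          rw [Matrix.fromBlocks_multiply]
          congr 1 <;> simp
        rw [h1]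
        have h2 := (prodSimple_blocks hc A (B + A * E) C (D + C * E) (by
            rw [Matrix.add_apply, hD, zero_add, hCE]
            exact hj)).mul (prodSimple_of_simple (simple_upper (-E)))
        exact h2.mono (by omega)
      · push Not at hB hC
        have hB0 : B = 0 := by
          ext i k
          rw [Subsingleton.elim k 0]
          exact hB i
        have hC0 : C = 0 := by
          ext k j
          rw [Subsingleton.elim k 0]
          exact hC j
        have hD0 : D = 0 := by
          ext k l
          rw [Subsingleton.elim k 0, Subsingleton.elim l 0]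
          exact hD
        rw [hB0, hC0, hD0]
        have h1 : Matrix.fromBlocks A 0 0 (0 : Matrix (Fin 1) (Fin 1) F) =
            Matrix.fromBlocks A 0 0 (1 : Matrix (Fin 1) (Fin 1) F) *
              Matrix.diagonal (Sum.elim (fun _ => 1) fun _ => 0) := by
          ext x y
          rw [Matrix.mul_diagonal]
          rcases x with x | x <;> rcases y with y | y <;> simp
        rw [h1]
        exact ((hc A).extend.mul (prodSimple_of_simple (simple_diagonal _))).mono (by omega)
  · exact (prodSimple_blocks hc A B C D hD).mono (by omega)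

end

theorem prodSimple_fin (q : ℕ) (A : Matrix (Fin q) (Fin q) F) : ProdSimple (4 * q) A := by
  induction q with
  | zero =>
    have : A = 1 := Subsingleton.elim _ _
    rw [this]
    exact prodSimple_one _
  | succ q ih =>
    have h1 := (prodSimple_sum ih (Matrix.reindex finSumFinEquiv.symm finSumFinEquiv.symm A :
      Matrix (Fin q ⊕ Fin 1) (Fin q ⊕ Fin 1) F)).reindex finSumFinEquiv
    have h2 : Matrix.reindex finSumFinEquiv finSumFinEquiv
        (Matrix.reindex finSumFinEquiv.symm finSumFinEquiv.symm A) = A := by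
      ext x y
      simp
    rw [h2] at h1
    exact h1

end Pool.Agent.V8H37.Rig
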