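import Mathlib
import Pool.Agent.V8H37.Rig.Simple

/-!
Kronecker products of small matrices are low rank matrices plus sparse matrices.
-/

namespace Pool.Agent.V8H37.Rig

variable {F : Type*} [Field F]

theorem rank_add_le {V : Type*} [Fintype V] (A B : Matrix V V F) :
    (A + B).rank ≤ A.rank + B.rank := by
  have h1 : (LinearMap.range (A + B).mulVecLin) ≤
      LinearMap.range A.mulVecLin ⊔ LinearMap.range B.mulVecLin := by
    rintro _ ⟨v, rfl⟩
    rw [Matrix.mulVecLin_add, LinearMap.add_apply]
    exact Submodule.add_mem_sup ⟨v, rfl⟩ ⟨v, rfl⟩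
  exact (Submodule.finrank_mono h1).trans (Submodule.finrank_add_le_finrank_add_finrank _ _)

/-- At most `g` nonzero entries in every row and in every column. -/
def Sparse {V : Type*} (g : ℕ) (S : Matrix V V F) : Prop :=
  (∀ x, {y | S x y ≠ 0}.ncard ≤ g) ∧ ∀ y, {x | S x y ≠ 0}.ncard ≤ g

section Sparse

variable {V : Type*} [Fintype V] [DecidableEq V]

omit [DecidableEq V] in
theorem Sparse.mono {g g' : ℕ} (h : g ≤ g') {S : Matrix V V F} (hS : Sparse g S) :
    Sparse g' S :=
  ⟨fun x => (hS.1 x).trans h, fun y => (hS.2 y).trans h⟩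

omit [DecidableEq V] in
theorem Sparse.mul {g g' : ℕ} {S S' : Matrix V V F} (hS : Sparse g S) (hS' : Sparse g' S') :
    Sparse (g * g') (S * S') := by
  classical
  have row : ∀ (g g' : ℕ) (S S' : Matrix V V F), (∀ x, {y | S x y ≠ 0}.ncard ≤ g) →
      (∀ x, {y | S' x y ≠ 0}.ncard ≤ g') → ∀ x, {y | (S * S') x y ≠ 0}.ncard ≤ g * g' := by
    intro g g' S S' h h' x
    have hsub : {y | (S * S') x y ≠ 0} ⊆
        ((Finset.univ.filter fun z => S x z ≠ 0).biUnion fun z =>
          Finset.univ.filter fun y => S' z y ≠ 0 : Finset V) := by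
      intro y hy
      have hy' : (S * S') x y ≠ 0 := hy
      rw [Matrix.mul_apply] at hy'
      obtain ⟨z, _, hz⟩ := Finset.exists_ne_zero_of_sum_ne_zero hy'
      simp only [Finset.coe_biUnion, Set.mem_iUnion, Finset.mem_coe, Finset.mem_filter,
        Finset.mem_univ, true_and]
      exact ⟨z, left_ne_zero_of_mul hz, right_ne_zero_of_mul hz⟩
    refine (Set.ncard_le_ncard hsub (Finset.finite_toSet _)).trans ?_
    rw [Set.ncard_coe_finset]
    have hcard : ∀ (M : Matrix V V F) (z : V), (Finset.univ.filter fun y => M z y ≠ 0).card =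
        {y | M z y ≠ 0}.ncard := by
      intro M z
      rw [← Set.ncard_coe_finset]
      congr 1
      ext y
      simp
    refine (Finset.card_biUnion_le_card_mul _ _ g' fun z _ => ?_).trans ?_
    · rw [hcard]; exact h' z
    · apply Nat.mul_le_mul_right
      rw [hcard]; exact h x
  refine ⟨row g g' S S' hS.1 hS'.1, ?_⟩
  intro y
  have h1 := row g' g S'.transpose S.transpose hS'.2 hS.2 y
  rw [← Matrix.transpose_mul, mul_comm g' g] at h1
  exact h1

/-- A matrix of rank at most `ρ` plus a matrix with at most `c` nonzero entries in each row and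
column. -/
def Dec (ρ : ℝ) (c : ℕ) (M : Matrix V V F) : Prop :=
  ∃ R S : Matrix V V F, M = R + S ∧ (R.rank : ℝ) ≤ ρ ∧ Sparse c S

omit [DecidableEq V] in
theorem Dec.mul {ρ ρ' : ℝ} {c c' : ℕ} {M M' : Matrix V V F} (h : Dec ρ c M)
    (h' : Dec ρ' c' M') : Dec (ρ + ρ') (c * c') (M * M') := by
  obtain ⟨R, S, rfl, hR, hS⟩ := h
  obtain ⟨R', S', rfl, hR', hS'⟩ := h'
  refine ⟨R * (R' + S') + S * R', S * S', by noncomm_ring, ?_, hS.mul hS'⟩
  have h1 : (R * (R' + S') + S * R').rank ≤ R.rank + R'.rank :=
    (rank_add_le _ _).trans (Nat.add_le_add (Matrix.rank_mul_le_left _ _)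
      (Matrix.rank_mul_le_right _ _))
  have h2 : ((R * (R' + S') + S * R').rank : ℝ) ≤ (R.rank : ℝ) + R'.rank := by exact_mod_cast h1
  linarith

omit [DecidableEq V] in
theorem dec_of_sparse {g : ℕ} {G : Matrix V V F} (h : Sparse g G) : Dec 0 g G :=
  ⟨0, G, by simp, by simp, h⟩

theorem sparse_one : Sparse 1 (1 : Matrix V V F) := by
  constructor
  · intro x
    have : {y | (1 : Matrix V V F) x y ≠ 0} ⊆ {x} := by
      intro y hy
      by_contra h
      exact hy (Matrix.one_apply_ne fun h' => h h'.symm)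
    exact (Set.ncard_le_ncard this).trans (by simp)
  · intro x
    have : {y | (1 : Matrix V V F) y x ≠ 0} ⊆ {x} := by
      intro y hy
      by_contra h
      exact hy (Matrix.one_apply_ne h)
    exact (Set.ncard_le_ncard this).trans (by simp)

theorem dec_list_prod {ρ : ℝ} {c : ℕ} (L : List (Matrix V V F)) (h : ∀ M ∈ L, Dec ρ c M) :
    Dec (L.length * ρ) (c ^ L.length) L.prod := by
  induction L with
  | nil => simpa using dec_of_sparse sparse_one
  | cons M L ih =>
    have h1 := (h M (by simp)).mul (ih fun M' hM' => h M' (by simp [hM']))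
    rw [List.prod_cons, List.length_cons]
    have h2 : ρ + (L.length : ℝ) * ρ = ((L.length + 1 : ℕ) : ℝ) * ρ := by push_cast; ring
    rw [h2, ← pow_succ'] at h1
    exact h1

end Sparse

/-- The Kronecker product of the matrices `A k`. -/
def kron {n q : ℕ} (A : Fin n → Matrix (Fin q) (Fin q) F) :
    Matrix (Fin n → Fin q) (Fin n → Fin q) F :=
  Matrix.of fun x y => ∏ k, A k (x k) (y k)

theorem kron_mul {n q : ℕ} (A B : Fin n → Matrix (Fin q) (Fin q) F) :
    kron (fun k => A k * B k) = kron A * kron B := by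
  ext x z
  rw [Matrix.mul_apply]
  simp only [kron, Matrix.of_apply, Matrix.mul_apply, ← Finset.prod_mul_distrib]
  rw [Finset.prod_univ_sum, Fintype.piFinset_univ]

theorem kron_one {n q : ℕ} : kron (fun _ : Fin n => (1 : Matrix (Fin q) (Fin q) F)) = 1 := by
  ext x y
  simp only [kron, Matrix.of_apply]
  by_cases h : x = y
  · subst h
    simp
  · rw [Matrix.one_apply_ne h]
    obtain ⟨k, hk⟩ := Function.ne_iff.mp h
    exact Finset.prod_eq_zero (Finset.mem_univ k) (Matrix.one_apply_ne hk)

theorem kron_list {n q c : ℕ} (B : Fin n → Fin c → Matrix (Fin q) (Fin q) F) :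
    kron (fun k => (List.ofFn (B k)).prod) =
      (List.ofFn fun i => kron fun k => B k i).prod := by
  induction c with
  | zero => simpa using kron_one
  | succ c ih =>
    rw [List.ofFn_succ, List.prod_cons, ← ih fun k i => B k i.succ, ← kron_mul]
    congr 1
    funext k
    rw [List.ofFn_succ, List.prod_cons]

/-- Exponential moment bound. -/
theorem sum_exp_le {n q : ℕ} (h : Fin n → Fin q → ℝ) (hle : ∀ k a, |h k a| ≤ 1)
    (hsum : ∀ k, ∑ a, h k a = 0) (lam : ℝ) (h0 : 0 ≤ lam) (h1 : lam ≤ 1) :
    ∑ x : Fin n → Fin q, Real.exp (lam * ∑ k, h k (x k)) ≤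
      (q : ℝ) ^ n * Real.exp (n * lam ^ 2) := by
  have e1 : ∀ x : Fin n → Fin q, Real.exp (lam * ∑ k, h k (x k)) =
      ∏ k, Real.exp (lam * h k (x k)) := by
    intro x
    rw [Finset.mul_sum, Real.exp_sum]
  simp only [e1]
  rw [← Fintype.piFinset_univ,
    ← Finset.prod_univ_sum (fun _ => Finset.univ) fun k a => Real.exp (lam * h k a)]
  have e2 : ∀ k, ∑ a, Real.exp (lam * h k a) ≤ (q : ℝ) * Real.exp (lam ^ 2) := by
    intro k
    calc ∑ a, Real.exp (lam * h k a) ≤ ∑ a : Fin q, (1 + lam * h k a + lam ^ 2) := by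
          refine Finset.sum_le_sum fun a _ => ?_
          have e3 : |lam * h k a| ≤ 1 := by
            rw [abs_mul, abs_of_nonneg h0]
            exact mul_le_one₀ h1 (abs_nonneg _) (hle k a)
          have e4 := (abs_le.mp (Real.abs_exp_sub_one_sub_id_le e3)).2
          have e5 : (lam * h k a) ^ 2 ≤ lam ^ 2 := by
            rw [mul_pow]
            have : (h k a) ^ 2 ≤ 1 := by
              rw [← sq_abs]
              exact pow_le_one₀ (abs_nonneg _) (hle k a)
            nlinarith [sq_nonneg lam]
          linarith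
      _ = (q : ℝ) * (1 + lam ^ 2) := by
          rw [Finset.sum_add_distrib, Finset.sum_add_distrib, ← Finset.mul_sum, hsum]
          simp
          ring
      _ ≤ (q : ℝ) * Real.exp (lam ^ 2) := by
          apply mul_le_mul_of_nonneg_left _ (Nat.cast_nonneg q)
          linarith [Real.add_one_le_exp (lam ^ 2)]
  calc ∏ k : Fin n, ∑ a, Real.exp (lam * h k a) ≤
        ∏ _k : Fin n, ((q : ℝ) * Real.exp (lam ^ 2)) :=
        Finset.prod_le_prod (fun k _ => Finset.sum_nonneg fun a _ => (Real.exp_pos _).le)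
          fun k _ => e2 k
    _ = (q : ℝ) ^ n * Real.exp (n * lam ^ 2) := by
        rw [Finset.prod_const, Finset.card_univ, Fintype.card_fin, mul_pow, ← Real.exp_nat_mul]

/-- Deviation bound. -/
theorem card_large_le {n q : ℕ} (hn : 0 < n) (h : Fin n → Fin q → ℝ) (hle : ∀ k a, |h k a| ≤ 1)
    (hsum : ∀ k, ∑ a, h k a = 0) (t : ℝ) (h0 : 0 ≤ t) (h1 : t ≤ 4 * n) :
    ((Finset.univ.filter fun x : Fin n → Fin q => t / 2 < ∑ k, h k (x k)).card : ℝ) ≤
      (q : ℝ) ^ n * Real.exp (-(t ^ 2 / (16 * n))) := by
  classical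
  have hn' : (0 : ℝ) < n := by exact_mod_cast hn
  set lam : ℝ := t / (4 * n) with hlam
  have hl0 : 0 ≤ lam := by positivity
  have hl1 : lam ≤ 1 := by
    rw [hlam, div_le_one (by positivity)]
    exact h1
  have e1 := sum_exp_le h hle hsum lam hl0 hl1
  have e2 : ((Finset.univ.filter fun x : Fin n → Fin q => t / 2 < ∑ k, h k (x k)).card : ℝ) *
      Real.exp (lam * (t / 2)) ≤ ∑ x : Fin n → Fin q, Real.exp (lam * ∑ k, h k (x k)) := by
    rw [← nsmul_eq_mul, ← Finset.sum_const]
    refine (Finset.sum_le_sum fun x hx => ?_).trans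
      (Finset.sum_le_sum_of_subset_of_nonneg (Finset.filter_subset _ _)
        fun x _ _ => (Real.exp_pos _).le)
    apply Real.exp_le_exp.mpr
    exact mul_le_mul_of_nonneg_left (Finset.mem_filter.mp hx).2.le hl0
  have e3 : ((Finset.univ.filter fun x : Fin n → Fin q => t / 2 < ∑ k, h k (x k)).card : ℝ) ≤
      ((q : ℝ) ^ n * Real.exp (n * lam ^ 2)) * Real.exp (-(lam * (t / 2))) := by
    rw [Real.exp_neg, ← div_eq_mul_inv, le_div_iff₀ (Real.exp_pos _)]
    exact e2.trans e1
  refine e3.trans (le_of_eq ?_)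
  rw [mul_assoc, ← Real.exp_add]
  congr 2
  rw [hlam]
  field_simp
  ring

/-- Number of words close to a given word. -/
theorem card_ball_le {n q : ℕ} (x : Fin n → Fin q) (t : ℕ) :
    {y : Fin n → Fin q | hammingDist x y ≤ t}.ncard ≤ (n * q + 1) ^ t := by
  classical
  induction t with
  | zero =>
    have : {y : Fin n → Fin q | hammingDist x y ≤ 0} ⊆ {x} := by
      intro y hy
      have : hammingDist x y = 0 := Nat.le_zero.mp hy
      exact (hammingDist_eq_zero.mp this).symm
    exact (Set.ncard_le_ncard this).trans (by simp)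
  | succ t ih =>
    set Bt : Finset (Fin n → Fin q) := Finset.univ.filter fun y => hammingDist x y ≤ t with hBt
    have hBtcard : Bt.card ≤ (n * q + 1) ^ t := by
      refine le_trans (le_of_eq ?_) ih
      rw [← Set.ncard_coe_finset]
      congr 1
      ext y
      simp [hBt]
    have hsub : {y : Fin n → Fin q | hammingDist x y ≤ t + 1} ⊆
        ((Finset.univ : Finset (Option (Fin n × Fin q))).biUnion fun o =>
          Bt.image fun z => match o with
            | none => z
            | some (k, a) => Function.update z k a : Finset (Fin n → Fin q)) := by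
      intro y hy
      have hy' : hammingDist x y ≤ t + 1 := hy
      simp only [Finset.coe_biUnion, Set.mem_iUnion, Finset.mem_coe, Finset.mem_univ,
        Finset.mem_image]
      by_cases h : hammingDist x y ≤ t
      · exact ⟨none, trivial, y, by simp [hBt, h], rfl⟩
      · have hpos : 0 < hammingDist x y := by omega
        obtain ⟨k, hk⟩ := Function.ne_iff.mp (hammingDist_pos.mp hpos)
        refine ⟨some (k, y k), trivial, Function.update y k (x k), ?_, ?_⟩
        · rw [hBt, Finset.mem_filter]
          refine ⟨Finset.mem_univ _, ?_⟩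
          have h1 : hammingDist x (Function.update y k (x k)) < hammingDist x y := by
            apply Finset.card_lt_card
            refine ⟨?_, ?_⟩
            · intro i hi
              simp only [Finset.mem_filter, Finset.mem_univ, true_and] at hi ⊢
              by_cases hik : i = k
              · subst hik
                simp at hi
              · rwa [Function.update_of_ne hik] at hi
            · intro hcon
              have := hcon (show k ∈ _ by simp [hk])
              simp at this
          omega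
        · simp
    refine (Set.ncard_le_ncard hsub (Finset.finite_toSet _)).trans ?_
    rw [Set.ncard_coe_finset]
    refine (Finset.card_biUnion_le_card_mul _ _ ((n * q + 1) ^ t) fun o _ => ?_).trans ?_
    · exact Finset.card_image_le.trans hBtcard
    · rw [Finset.card_univ, Fintype.card_option, Fintype.card_prod, Fintype.card_fin,
        Fintype.card_fin, pow_succ']

/-- A Kronecker product of simple matrices. -/
theorem dec_kron_simple {n q : ℕ} (B : Fin n → Matrix (Fin q) (Fin q) F)
    (hB : ∀ k, Simple (B k)) (t : ℕ) :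
    Dec (2 * (q : ℝ) ^ n * Real.exp (-((t : ℝ) ^ 2 / (16 * n)))) ((n * q + 1) ^ t)
      (kron B) := by
  classical
  -- a matrix with short jumps is sparse
  have hsparse : ∀ S : Matrix (Fin n → Fin q) (Fin n → Fin q) F,
      (∀ x y, S x y ≠ 0 → hammingDist x y ≤ t) → Sparse ((n * q + 1) ^ t) S := by
    intro S hS
    refine ⟨fun x => ?_, fun y => ?_⟩
    · exact (Set.ncard_le_ncard (fun y hy => hS x y hy)).trans (card_ball_le x t)
    · refine (Set.ncard_le_ncard (fun x hx => ?_)).trans (card_ball_le y t)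
      show hammingDist y x ≤ t
      rw [hammingDist_comm]
      exact hS x y hx
  by_cases htn : n ≤ t
  · refine ⟨0, kron B, by simp, ?_, hsparse _ fun x y _ => ?_⟩
    · rw [Matrix.rank_zero, Nat.cast_zero]
      positivity
    · refine hammingDist_le_card_fintype.trans ?_
      rwa [Fintype.card_fin]
  push Not at htn
  have hn : 0 < n := by omega
  rcases Nat.eq_zero_or_pos q with hq | hq
  · subst hq
    refine ⟨0, kron B, by simp, ?_, hsparse _ fun x y _ => ?_⟩
    · rw [Matrix.rank_zero, Nat.cast_zero]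
      positivity
    · exact Fin.elim0 (x ⟨0, hn⟩)
  have hq' : (0 : ℝ) < q := by exact_mod_cast hq
  choose w hw using hB
  set ind : Fin n → Fin q → ℝ := fun k a => if w k a then 1 else 0 with hind
  set p : Fin n → ℝ := fun k => (∑ a, ind k a) / q with hp
  have hind01 : ∀ k a, 0 ≤ ind k a ∧ ind k a ≤ 1 := by
    intro k a
    simp only [hind]
    split_ifs <;> norm_num
  have hp01 : ∀ k, 0 ≤ p k ∧ p k ≤ 1 := by
    intro k
    constructor
    · exact div_nonneg (Finset.sum_nonneg fun a _ => (hind01 k a).1) hq'.le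
    · rw [hp, div_le_one hq']
      calc ∑ a, ind k a ≤ ∑ _a : Fin q, (1 : ℝ) := Finset.sum_le_sum fun a _ => (hind01 k a).2
        _ = q := by simp
  set h : Fin n → Fin q → ℝ := fun k a => ind k a - p k with hh
  have hle : ∀ k a, |h k a| ≤ 1 := by
    intro k a
    rw [abs_le]
    have h1 := hind01 k a
    have h2 := hp01 k
    constructor <;> simp only [hh] <;> linarith
  have hsum : ∀ k, ∑ a, h k a = 0 := by
    intro k
    simp only [hh, Finset.sum_sub_distrib, Finset.sum_const, Finset.card_univ, Fintype.card_fin,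
      nsmul_eq_mul, hp]
    field_simp
    ring
  have ht0 : (0 : ℝ) ≤ t := Nat.cast_nonneg t
  have ht1 : (t : ℝ) ≤ 4 * n := by
    have : (t : ℝ) ≤ n := by exact_mod_cast htn.le
    have : (0 : ℝ) ≤ n := Nat.cast_nonneg n
    linarith
  have hup := card_large_le hn h hle hsum t ht0 ht1
  have hdown := card_large_le hn (fun k a => -h k a) (fun k a => by rw [abs_neg]; exact hle k a)
    (fun k => by rw [Finset.sum_neg_distrib, hsum, neg_zero]) t ht0 ht1
  set Cl := Finset.univ.filter fun x : Fin n → Fin q => (t : ℝ) / 2 < ∑ k, h k (x k) with hCl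
  set Rw := Finset.univ.filter fun x : Fin n → Fin q => (t : ℝ) / 2 < ∑ k, -h k (x k) with hRw
  set D1 : Matrix (Fin n → Fin q) (Fin n → Fin q) F :=
    Matrix.diagonal fun x => if x ∈ Rw then 1 else 0 with hD1
  set D1' : Matrix (Fin n → Fin q) (Fin n → Fin q) F :=
    Matrix.diagonal fun x => if x ∈ Rw then 0 else 1 with hD1'
  set D2 : Matrix (Fin n → Fin q) (Fin n → Fin q) F :=
    Matrix.diagonal fun x => if x ∈ Cl then 1 else 0 with hD2
  set D2' : Matrix (Fin n → Fin q) (Fin n → Fin q) F :=
    Matrix.diagonal fun x => if x ∈ Cl then 0 else 1 with hD2'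
  have hrankD : ∀ W : Finset (Fin n → Fin q), (Matrix.diagonal fun x => if x ∈ W then
      (1 : F) else 0).rank ≤ W.card := by
    intro W
    rw [Matrix.rank_diagonal, Fintype.card_subtype]
    apply Finset.card_le_card
    intro x hx
    simp only [Finset.mem_filter, Finset.mem_univ, true_and] at hx
    by_contra hcon
    exact hx (if_neg hcon)
  have hD1sum : D1 + D1' = 1 := by
    rw [hD1, hD1', Matrix.diagonal_add, ← Matrix.diagonal_one]
    congr 1
    funext x
    split_ifs <;> simp
  have hD2sum : D2 + D2' = 1 := by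
    rw [hD2, hD2', Matrix.diagonal_add, ← Matrix.diagonal_one]
    congr 1
    funext x
    split_ifs <;> simp
  refine ⟨D1 * kron B + D1' * kron B * D2, D1' * kron B * D2', ?_, ?_, hsparse _ ?_⟩
  · have e1 : kron B = (D1 + D1') * kron B * 1 := by rw [hD1sum, one_mul, mul_one]
    rw [add_assoc, ← mul_add, hD2sum, mul_one, ← add_mul, hD1sum, one_mul]
  · have h1 : (D1 * kron B + D1' * kron B * D2).rank ≤ Rw.card + Cl.card :=
      (rank_add_le _ _).trans (Nat.add_le_add
        ((Matrix.rank_mul_le_left _ _).trans (hrankD Rw))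
        ((Matrix.rank_mul_le_right _ _).trans (hrankD Cl)))
    have h2 : ((D1 * kron B + D1' * kron B * D2).rank : ℝ) ≤ Rw.card + Cl.card := by
      exact_mod_cast h1
    linarith
  · intro x y hxy
    rw [hD2', Matrix.mul_diagonal, hD1', Matrix.diagonal_mul] at hxy
    have hx : x ∉ Rw := by
      intro hcon
      simp [hcon] at hxy
    have hy : y ∉ Cl := by
      intro hcon
      simp [hcon] at hxy
    have hK : kron B x y ≠ 0 := by
      intro hcon
      simp [hcon] at hxy
    have hKk : ∀ k, x k ≠ y k → w k (x k) = false ∧ w k (y k) = true := by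
      intro k hk
      apply hw k _ _ hk
      intro hcon
      exact hK (Finset.prod_eq_zero (Finset.mem_univ k) hcon)
    have e1 : ((hammingDist x y : ℕ) : ℝ) = ∑ k, (h k (y k) - h k (x k)) := by
      have e2 : ∀ k, h k (y k) - h k (x k) = if x k ≠ y k then 1 else 0 := by
        intro k
        simp only [hh, hind]
        by_cases hk : x k = y k
        · simp [hk]
        · obtain ⟨h3, h4⟩ := hKk k hk
          simp [hk, h3, h4]
      simp only [e2]
      rw [Finset.sum_boole]
      rfl
    rw [Finset.sum_sub_distrib] at e1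
    rw [hCl, Finset.mem_filter, not_and, not_lt] at hy
    rw [hRw, Finset.mem_filter, not_and, not_lt, Finset.sum_neg_distrib] at hx
    have e3 := hy (Finset.mem_univ _)
    have e4 := hx (Finset.mem_univ _)
    have e5 : ((hammingDist x y : ℕ) : ℝ) ≤ (t : ℝ) := by
      rw [e1]
      linarith
    exact_mod_cast e5

theorem dec_kron {n q : ℕ} (A : Fin n → Matrix (Fin q) (Fin q) F) (t : ℕ) :
    Dec (((4 * q : ℕ) : ℝ) * (2 * (q : ℝ) ^ n * Real.exp (-((t : ℝ) ^ 2 / (16 * n)))))
      (((n * q + 1) ^ t) ^ (4 * q)) (kron A) := by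
  classical
  have h1 : ∀ k, ∃ B : Fin (4 * q) → Matrix (Fin q) (Fin q) F, (∀ i, Simple (B i)) ∧
      A k = (List.ofFn B).prod := fun k => prodSimple_fin q (A k)
  choose B hB hA using h1
  have h2 : kron A = (List.ofFn fun i => kron fun k => B k i).prod := by
    rw [← kron_list]
    congr 1
    funext k
    exact hA k
  rw [h2]
  have h3 := dec_list_prod (List.ofFn fun i : Fin (4 * q) => kron fun k => B k i)
    (ρ := 2 * (q : ℝ) ^ n * Real.exp (-((t : ℝ) ^ 2 / (16 * n)))) (c := (n * q + 1) ^ t)
    (fun M hM => by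
      obtain ⟨i, rfl⟩ := List.mem_ofFn.mp hM
      exact dec_kron_simple _ (fun k => hB k i) t)
  rw [List.length_ofFn] at h3
  exact h3

/-- The layered matrices. -/
theorem dec_layered {n q m g : ℕ} (A : Fin m → Fin n → Matrix (Fin q) (Fin q) F)
    (G : Fin m → Matrix (Fin n → Fin q) (Fin n → Fin q) F)
    (H : Matrix (Fin n → Fin q) (Fin n → Fin q) F)
    (hG : ∀ l, Sparse g (G l)) (hH : Sparse g H) (t : ℕ) :
    Dec (m * (((4 * q : ℕ) : ℝ) * (2 * (q : ℝ) ^ n * Real.exp (-((t : ℝ) ^ 2 / (16 * n))))))
      (g ^ (m + 1) * (((n * q + 1) ^ t) ^ (4 * q)) ^ m)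
      ((List.ofFn fun l => G l * kron (A l)).prod * H) := by
  have h1 := dec_list_prod (List.ofFn fun l : Fin m => G l * kron (A l))
    (ρ := ((4 * q : ℕ) : ℝ) * (2 * (q : ℝ) ^ n * Real.exp (-((t : ℝ) ^ 2 / (16 * n)))))
    (c := g * ((n * q + 1) ^ t) ^ (4 * q))
    (fun M hM => by
      obtain ⟨l, rfl⟩ := List.mem_ofFn.mp hM
      have h2 := (dec_of_sparse (hG l)).mul (dec_kron (A l) t)
      rwa [zero_add] at h2)
  rw [List.length_ofFn] at h1
  have h3 := h1.mul (dec_of_sparse hH)
  rw [add_zero] at h3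
  have h4 : (g * ((n * q + 1) ^ t) ^ (4 * q)) ^ m * g =
      g ^ (m + 1) * (((n * q + 1) ^ t) ^ (4 * q)) ^ m := by
    rw [mul_pow, pow_succ]; ring
  rwa [h4] at h3

end Pool.Agent.V8H37.Rig
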