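import Mathlib
import Pool.Agent.V8H37.Rig.Alg

/-!
Linear independence over the rationals of products of the numbers `2 ^ (1 / p)`.
-/

namespace Pool.Agent.V8H37.Rig

open Polynomial

theorem irreducible_X_pow_sub_two (P : ℕ) (hP : 0 < P) :
    Irreducible (X ^ P - C (2 : ℚ)) := by
  have hmonic : (X ^ P - C (2 : ℤ)).Monic := monic_X_pow_sub_C _ hP.ne'
  have h2 : Irreducible (X ^ P - C (2 : ℤ)) := by
    have hprime : (Ideal.span {(2 : ℤ)}).IsPrime := by
      rw [Ideal.span_singleton_prime (by norm_num)]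
      exact Int.prime_two
    apply irreducible_of_eisenstein_criterion hprime
    · rw [hmonic.leadingCoeff, Ideal.mem_span_singleton]
      norm_num
    · intro n hn
      rw [degree_X_pow_sub_C hP] at hn
      have hn' : n < P := by exact_mod_cast hn
      rw [coeff_sub, coeff_X_pow, if_neg hn'.ne, zero_sub, Ideal.mem_span_singleton,
        coeff_C]
      split_ifs <;> simp
    · rw [degree_X_pow_sub_C hP]
      exact_mod_cast hP
    · rw [coeff_sub, coeff_X_pow, if_neg hP.ne, zero_sub, coeff_C_zero, Ideal.span_singleton_pow,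
        Ideal.mem_span_singleton]
      norm_num
    · exact hmonic.isPrimitive
  have h3 := (hmonic.irreducible_iff_irreducible_map_fraction_map (K := ℚ)).mp h2
  have h4 : (X ^ P - C (2 : ℤ)).map (algebraMap ℤ ℚ) = X ^ P - C (2 : ℚ) := by
    rw [Polynomial.map_sub, Polynomial.map_pow, map_X, map_C]
    rfl
  rwa [h4] at h3

theorem minpoly_root (P : ℕ) (hP : 0 < P) (α : ℂ) (hα : α ^ P = 2) :
    minpoly ℚ α = X ^ P - C (2 : ℚ) := by
  symm
  apply minpoly.eq_of_irreducible_of_monic (irreducible_X_pow_sub_two P hP)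
  · simp [hα]
  · exact monic_X_pow_sub_C _ hP.ne'

/-- The positive real number `2 ^ (1 / p)`, as a complex number. -/
noncomputable def rt (p : ℕ) : ℂ := (((2 : ℝ) ^ (1 / (p : ℝ)) : ℝ) : ℂ)

theorem rt_pow (a c : ℕ) (ha : 0 < a) (hc : 0 < c) : rt (a * c) ^ c = rt a := by
  rw [rt, rt, ← Complex.ofReal_pow, ← Real.rpow_natCast, ← Real.rpow_mul (by norm_num)]
  congr 2
  push_cast
  have : (c : ℝ) ≠ 0 := by positivity
  have : (a : ℝ) ≠ 0 := by positivity
  field_simp

theorem rt_one : rt 1 = 2 := by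
  simp [rt]

theorem linearIndependent_roots {κ : Type*} [Fintype κ] (p : κ → ℕ) (Q : ℕ)
    (hQ : ∀ k, Q ≤ p k) (hp : ∀ k, 0 < p k) (hcop : ∀ k k', k ≠ k' → (p k).Coprime (p k')) :
    LinearIndependent ℚ fun e : κ → Fin Q => ∏ k, rt (p k) ^ (e k : ℕ) := by
  classical
  set P : ℕ := ∏ k, p k with hPdef
  have hP : 0 < P := Finset.prod_pos fun k _ => hp k
  set α : ℂ := rt P with hα
  have hαP : α ^ P = 2 := by
    have := rt_pow 1 P one_pos hP
    rwa [one_mul, rt_one] at this
  set c : κ → ℕ := fun k => ∏ k' ∈ Finset.univ.erase k, p k' with hc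
  have hpc : ∀ k, p k * c k = P := fun k => Finset.mul_prod_erase _ _ (Finset.mem_univ k)
  have hcpos : ∀ k, 0 < c k := fun k => Finset.prod_pos fun k' _ => hp k'
  have hroot : ∀ k, rt (p k) = α ^ c k := by
    intro k
    rw [hα, ← hpc k, rt_pow _ _ (hp k) (hcpos k)]
  set j : (κ → Fin Q) → ℕ := fun e => ∑ k, c k * (e k : ℕ) with hj
  have hprod : ∀ e : κ → Fin Q, ∏ k, rt (p k) ^ (e k : ℕ) = α ^ j e := by
    intro e
    rw [hj, ← Finset.prod_pow_eq_pow_sum]
    exact Finset.prod_congr rfl fun k _ => by rw [hroot, ← pow_mul]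
  have hinj : ∀ e e' : κ → Fin Q, j e % P = j e' % P → e = e' := by
    intro e e' h
    funext k
    have h1 : j e ≡ j e' [MOD p k] := Nat.ModEq.of_dvd ⟨c k, (hpc k).symm⟩ h
    have h2 : ∀ e : κ → Fin Q, j e ≡ c k * (e k : ℕ) [MOD p k] := by
      intro e
      show ∑ k, c k * (e k : ℕ) ≡ c k * (e k : ℕ) [MOD p k]
      have h3 : ∑ k, c k * (e k : ℕ) = c k * (e k : ℕ) +
          ∑ k' ∈ Finset.univ.erase k, c k' * (e k' : ℕ) :=
        (Finset.add_sum_erase _ _ (Finset.mem_univ k)).symm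
      have h4 : p k ∣ ∑ k' ∈ Finset.univ.erase k, c k' * (e k' : ℕ) := by
        apply Finset.dvd_sum
        intro k' hk'
        apply Dvd.dvd.mul_right
        exact Finset.dvd_prod_of_mem _ (by
          rw [Finset.mem_erase]
          exact ⟨(Finset.ne_of_mem_erase hk').symm, Finset.mem_univ k⟩)
      rw [h3]
      have h5 := (Nat.modEq_zero_iff_dvd.mpr h4).add_left (c k * (e k : ℕ))
      simpa using h5
    have h6 : c k * (e k : ℕ) ≡ c k * (e' k : ℕ) [MOD p k] := ((h2 e).symm.trans h1).trans (h2 e')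
    have hcc : Nat.gcd (p k) (c k) = 1 := by
      apply Nat.Coprime.prod_right
      intro k' hk'
      exact hcop k k' (Finset.ne_of_mem_erase hk').symm
    have h7 := Nat.ModEq.cancel_left_of_coprime hcc h6
    have h8 := h7
    rw [Nat.ModEq, Nat.mod_eq_of_lt ((e k).2.trans_le (hQ k)),
      Nat.mod_eq_of_lt ((e' k).2.trans_le (hQ k))] at h8
    exact Fin.ext h8
  have hdeg : (minpoly ℚ α).natDegree = P := by
    rw [minpoly_root P hP α hαP, natDegree_X_pow_sub_C]
  have hpow : LinearIndependent ℚ fun i : Fin P => α ^ (i : ℕ) := by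
    have := linearIndependent_pow (K := ℚ) α
    rw [hdeg] at this
    exact this
  set g : (κ → Fin Q) → Fin P := fun e => ⟨j e % P, Nat.mod_lt _ hP⟩ with hg
  have hginj : Function.Injective g := fun e e' h => hinj e e' (Fin.mk.inj_iff.mp h)
  have h1 := hpow.comp g hginj
  have h2 := h1.units_smul (fun e => Units.mk0 ((2 : ℚ) ^ (j e / P)) (by positivity))
  convert! h2 using 1
  funext e
  rw [hprod]
  simp only [Function.comp, Pi.smul_apply', hg]
  rw [Units.smul_def, Units.val_mk0]
  have h3 : α ^ j e = (α ^ P) ^ (j e / P) * α ^ (j e % P) := by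
    rw [← pow_mul, ← pow_add, Nat.div_add_mod]
  rw [h3, hαP, Algebra.smul_def]
  simp

end Pool.Agent.V8H37.Rig
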