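import Mathlib
import Pool.Agent.V8H37.Rig.Roots

/-!
Rigidity of block diagonal matrices with the entries `2 ^ (1 / p)`.
-/

namespace Pool.Agent.V8H37.Rig

variable {V ι : Type*} [Fintype V] [DecidableEq V] [Fintype ι] [DecidableEq ι]

/-- Every entry of the low rank matrix is a quotient of two low degree expressions in the entries
at the positions. -/
theorem entry_quot (β : V → ι) (T : Finset (V × V)) (L : V → V → ℂ) (I : Finset V)
    (J : Finset (V × V)) (h : Fits β T L I J) (u v : V) :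
    ∃ D N : ℂ, D ∈ Fil ℚ (fun x : positions β T I J => L x.1.1 x.1.2) (I.card + 2) ∧
      N ∈ Fil ℚ (fun x : positions β T I J => L x.1.1 x.1.2) (I.card + 2) ∧
      D ≠ 0 ∧ L u v * D = N := by
  classical
  set x : positions β T I J → ℂ := fun x => L x.1.1 x.1.2 with hx
  have hvar : ∀ y : V × V, y ∈ positions β T I J → L y.1 y.2 ∈ Fil ℚ x 1 := by
    intro y hy
    exact var_mem_Fil x ⟨y, hy⟩
  have hI : ∀ i ∈ I, ∀ v, L i v ∈ Fil ℚ x 1 := by
    intro i hi v
    by_cases hv : v ∈ allowed β T i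
    · exact hvar (i, v) (Finset.mem_union_left _ (by simp [hi, hv]))
    · rw [h.supp i v hv]; exact Submodule.zero_mem _
  by_cases hu : u ∈ I
  · exact ⟨1, L u v, one_mem_Fil x _, Fil_mono x (by omega) (hI u hu v), one_ne_zero,
      mul_one _⟩
  · obtain ⟨e, he, hdet⟩ := exists_columns β T L I J h u hu
    obtain ⟨c, hc⟩ := (Submodule.mem_span_range_iff_exists_fun ℂ).mp (h.span u)
    have hc' : ∀ v, L u v = ∑ i : I, c i * L i v := by
      intro v
      rw [← hc, Finset.sum_apply]
      rfl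
    have hrel := cramer_rel L (fun i : I => (i : V)) e u c hc' v
    have hB : ∀ i i' : I, (Matrix.of fun i i' : I => L i (e i')) i i' ∈ Fil ℚ x 1 :=
      fun i i' => hI i i.2 (e i')
    have hLu : ∀ i', L u (e i') ∈ Fil ℚ x 1 := by
      intro i'
      rcases he i' with h1 | h1
      · rw [h.supp u _ h1]; exact Submodule.zero_mem _
      · exact hvar (u, e i') (Finset.mem_union_right _ h1)
    refine ⟨_, _, ?_, ?_, hdet, hrel⟩
    · apply Fil_mono x (E := Fintype.card I) (by rw [Fintype.card_coe]; omega)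
      exact det_mem_Fil x _ hB
    · apply Submodule.sum_mem
      intro i _
      apply Submodule.sum_mem
      intro i' _
      have h1 := mul_mem_Fil x (mul_mem_Fil x (hLu i') (adjugate_mem_Fil x _ hB i' i))
        (hI i i.2 v)
      rw [Fintype.card_coe] at h1
      exact Fil_mono x (by omega) h1

/-- The counting inequality. -/
theorem key_ineq (β : V → ι) (T : Finset (V × V)) (L : V → V → ℂ) (I : Finset V)
    (J : Finset (V × V)) (h : Fits β T L I J) (M : Finset (V × V)) (Q : ℕ) (hQ : 0 < Q)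
    (hind : LinearIndependent ℚ fun e : M → Fin Q =>
      ∏ k : M, (L k.1.1 k.1.2) ^ (e k : ℕ)) :
    Q ^ M.card ≤ (M.card * ((Q - 1) * (I.card + 2)) + 1) ^ (positions β T I J).card := by
  classical
  set x : positions β T I J → ℂ := fun x => L x.1.1 x.1.2 with hx
  have hquot := fun k : M => entry_quot β T L I J h k.1.1 k.1.2
  choose D N hD hN hD0 hDN using hquot
  set E := M.card * ((Q - 1) * (I.card + 2)) with hE
  set c : ℂ := ∏ k : M, D k ^ (Q - 1) with hc
  have hc0 : c ≠ 0 := Finset.prod_ne_zero_iff.mpr fun k _ => pow_ne_zero _ (hD0 k)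
  have hmem : ∀ e : M → Fin Q, c * ∏ k : M, (L k.1.1 k.1.2) ^ (e k : ℕ) ∈ Fil ℚ x E := by
    intro e
    have h1 : c * ∏ k : M, (L k.1.1 k.1.2) ^ (e k : ℕ) =
        ∏ k : M, (N k ^ (e k : ℕ) * D k ^ (Q - 1 - (e k : ℕ))) := by
      rw [hc, ← Finset.prod_mul_distrib]
      refine Finset.prod_congr rfl fun k _ => ?_
      have he : (e k : ℕ) ≤ Q - 1 := by have := (e k).2; omega
      have h2 : D k ^ (Q - 1) = D k ^ (e k : ℕ) * D k ^ (Q - 1 - (e k : ℕ)) := by
        rw [← pow_add]; congr 1; omega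
      rw [← hDN k, h2, mul_pow]
      ring
    rw [h1]
    have h3 := prod_mem_Fil (F := ℚ) x Finset.univ
      (fun k : M => N k ^ (e k : ℕ) * D k ^ (Q - 1 - (e k : ℕ)))
      (fun _ => (Q - 1) * (I.card + 2)) (fun k _ => by
        have he : (e k : ℕ) ≤ Q - 1 := by have := (e k).2; omega
        have h4 := mul_mem_Fil x (pow_mem_Fil x (hN k) (e k : ℕ))
          (pow_mem_Fil x (hD k) (Q - 1 - (e k : ℕ)))
        rw [← add_mul] at h4
        rwa [show (e k : ℕ) + (Q - 1 - (e k : ℕ)) = Q - 1 by omega] at h4)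
    rw [Finset.sum_const, smul_eq_mul, Finset.card_univ, Fintype.card_coe] at h3
    exact h3
  have hind2 : LinearIndependent ℚ fun e : M → Fin Q =>
      c * ∏ k : M, (L k.1.1 k.1.2) ^ (e k : ℕ) := by
    have h1 := hind.map' (LinearMap.mulLeft ℚ c) (by
      rw [LinearMap.ker_eq_bot]
      exact mul_right_injective₀ hc0)
    exact h1
  have hind3 : LinearIndependent ℚ fun e : M → Fin Q =>
      (⟨c * ∏ k : M, (L k.1.1 k.1.2) ^ (e k : ℕ), hmem e⟩ : Fil ℚ x E) := by
    apply LinearIndependent.of_comp (Fil ℚ x E).subtype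
    exact hind2
  have h2 := hind3.fintype_card_le_finrank
  rw [Fintype.card_fun, Fintype.card_fin, Fintype.card_coe] at h2
  refine h2.trans ((finrank_Fil_le x E).trans ?_)
  rw [Fintype.card_coe]

end Pool.Agent.V8H37.Rig
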